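import Mathlib
import Pool.Agent.Helper17.SympBase

open scoped ContDiff Distributions Topology
open Set Function TopologicalSpace

namespace Pool.Agent.TOR

open Pool.Agent.Helper17

/-! ### The torus and its group of symplectomorphisms -/

/-- A bijection `ψ` of `ℝ^{2n}` is (the lift of) a symplectomorphism of the torus
`ℝ^{2n} / Λ`, `Λ` the lattice generated by the basis `b`, if `ψ` and its inverse are `C^∞`,
`ψ^* ω_st = ω_st`, and `ψ` commutes with the translations by the vectors `b i`. -/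
def IsTorusSymp {n N : ℕ} (b : Module.Basis (Fin N) ℝ (Phase n)) (ψ : Equiv.Perm (Phase n)) :
    Prop :=
  ContDiff ℝ ∞ ψ ∧ ContDiff ℝ ∞ ψ.symm ∧
    (∀ p u v : Phase n, omegaStd (fderiv ℝ ψ p u) (fderiv ℝ ψ p v) = omegaStd u v) ∧
    ∀ (i : Fin N) (x : Phase n), ψ (x + b i) = ψ x + b i

lemma IsTorusSymp.one {n N : ℕ} (b : Module.Basis (Fin N) ℝ (Phase n)) :
    IsTorusSymp b (1 : Equiv.Perm (Phase n)) := by
  refine ⟨contDiff_id, contDiff_id, ?_, ?_⟩
  · intro p u v
    have : fderiv ℝ (1 : Equiv.Perm (Phase n)) p = ContinuousLinearMap.id ℝ _ := fderiv_id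
    rw [this]; simp
  · intro i x; rfl

lemma IsTorusSymp.mul {n N : ℕ} {b : Module.Basis (Fin N) ℝ (Phase n)}
    {φ ψ : Equiv.Perm (Phase n)} (h1 : IsTorusSymp b φ) (h2 : IsTorusSymp b ψ) :
    IsTorusSymp b (φ * ψ) := by
  obtain ⟨hφ, hφs, hφo, hφp⟩ := h1
  obtain ⟨hψ, hψs, hψo, hψp⟩ := h2
  refine ⟨hφ.comp hψ, hψs.comp hφs, ?_, ?_⟩
  · intro p u v
    have h : fderiv ℝ (φ * ψ : Equiv.Perm (Phase n)) p =
        (fderiv ℝ φ (ψ p)).comp (fderiv ℝ ψ p) :=
      fderiv_comp p (hφ.differentiable (by simp) _) (hψ.differentiable (by simp) _)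
    rw [h]
    simp only [ContinuousLinearMap.comp_apply]
    rw [hφo, hψo]
  · intro i x
    simp [hψp, hφp]

lemma IsTorusSymp.inv {n N : ℕ} {b : Module.Basis (Fin N) ℝ (Phase n)}
    {φ : Equiv.Perm (Phase n)} (h : IsTorusSymp b φ) : IsTorusSymp b φ⁻¹ := by
  obtain ⟨hφ, hφs, hφo, hφp⟩ := h
  refine ⟨hφs, hφ, ?_, ?_⟩
  · intro p u v
    have h : (fderiv ℝ φ (φ.symm p)).comp (fderiv ℝ φ.symm p) = ContinuousLinearMap.id ℝ _ := by
      rw [← fderiv_comp p (hφ.differentiable (by simp) _) (hφs.differentiable (by simp) _)]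
      have : (φ ∘ φ.symm : Phase n → Phase n) = id := by ext1 x; simp
      rw [this, fderiv_id]
    have hu : fderiv ℝ φ (φ.symm p) (fderiv ℝ φ.symm p u) = u := by
      simpa using congrArg (fun L => L u) h
    have hv : fderiv ℝ φ (φ.symm p) (fderiv ℝ φ.symm p v) = v := by
      simpa using congrArg (fun L => L v) h
    change omegaStd (fderiv ℝ φ.symm p u) (fderiv ℝ φ.symm p v) = _
    rw [← hφo (φ.symm p), hu, hv]
  · intro i x
    change φ.symm (x + b i) = φ.symm x + b i
    rw [Equiv.symm_apply_eq, hφp, Equiv.apply_symm_apply]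

/-- The group of symplectomorphisms of `ℝ^{2n}` commuting with the lattice spanned by the basis
`b`: the lifts of the symplectomorphisms of the torus `ℝ^{2n} / Λ` which act trivially on its
first homology. -/
def TorusSymp {n N : ℕ} (b : Module.Basis (Fin N) ℝ (Phase n)) :
    Subgroup (Equiv.Perm (Phase n)) where
  carrier := {φ | IsTorusSymp b φ}
  mul_mem' := IsTorusSymp.mul
  one_mem' := IsTorusSymp.one b
  inv_mem' := IsTorusSymp.inv

/-- The derivative of order `k`, as a continuous map. -/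
noncomputable def jet {n N : ℕ} (b : Module.Basis (Fin N) ℝ (Phase n)) (k : ℕ)
    (ψ : TorusSymp b) : C(Phase n, Phase n [×k]→L[ℝ] Phase n) :=
  ⟨iteratedFDeriv ℝ k (ψ : Equiv.Perm (Phase n)),
    ψ.2.1.continuous_iteratedFDeriv (WithTop.coe_le_coe.2 le_top)⟩

/-- The `C^∞` topology: convergence of all derivatives, uniformly on compact sets. -/
noncomputable instance {n N : ℕ} (b : Module.Basis (Fin N) ℝ (Phase n)) :
    TopologicalSpace (TorusSymp b) :=
  ⨅ k : ℕ, TopologicalSpace.induced (jet b k) inferInstance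

/-- The open fundamental box of the lattice. -/
def openBox {n N : ℕ} (b : Module.Basis (Fin N) ℝ (Phase n)) : Set (Phase n) :=
  {x | ∀ i, 0 < b.repr x i ∧ b.repr x i < 1}

/-- `ψ` is the periodic extension of `φ|K`: equal to `φ` on `K`, and to the identity outside the
translates of `K` by the lattice. -/
def IsPer {n N : ℕ} (b : Module.Basis (Fin N) ℝ (Phase n)) (K : Set (Phase n))
    (φ ψ : Equiv.Perm (Phase n)) : Prop :=
  (∀ x ∈ K, ψ x = φ x) ∧
    ∀ x, (∀ v ∈ Submodule.span ℤ (Set.range b), x - v ∉ K) → ψ x = x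

end Pool.Agent.TOR
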