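import Mathlib
import Pool.Agent.Helper17.SympBase
import Pool.Agent.TOR.Base
import Pool.Agent.Helper17.CFamily
import Pool.Agent.H50.Susp.Straighten

set_option maxSynthPendingDepth 3

open scoped ContDiff Distributions Topology
open Set Function TopologicalSpace

namespace Pool.Agent.TOR

open Pool.Agent.Helper17

/-! ### Families at level `j`: periodic in the first `j` directions, compactly supported in the
others -/

section lev

variable {n N : ℕ} (b : Module.Basis (Fin N) ℝ (Phase n))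

/-- The points whose coordinates of index `≥ j` are bounded by `R`. -/
def slab (j : ℕ) (R : ℝ) : Set (Phase n) := {x | ∀ i : Fin N, j ≤ (i : ℕ) → |b.repr x i| ≤ R}

/-- Families of symplectomorphisms at level `j`. -/
structure Lev (j : ℕ) (R : ℝ) {T : Type} [TopologicalSpace T] (F : T → Equiv.Perm (Phase n)) :
    Prop where
  cf : CF (fun t x => F t x)
  cf' : CF (fun t x => (F t).symm x)
  symp : ∀ t p u v, omegaStd (fderiv ℝ (F t) p u) (fderiv ℝ (F t) p v) = omegaStd u v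
  per : ∀ t, ∀ i : Fin N, (i : ℕ) < j → ∀ x, F t (x + b i) = F t x + b i
  supp : ∀ t, ∀ x ∉ slab b j R, F t x = x

/-- The Hamiltonian `y ↦ ω(y - ψ⁻¹ y, e)` (`ψ'` stands for the inverse of `ψ`) of the difference
between the translation by `e` and its conjugate by `ψ`. -/
noncomputable def kap (e : Phase n) (ψ' : Phase n → Phase n) (y : Phase n) : ℝ :=
  omegaStd (y - ψ' y) e

/-- The Hamiltonian of the isotopy `a ↦ T_a ψ T_{-a} ψ⁻¹`, `T_a` the translation by `a b_j`, cut
off by the function `c a` of the coordinate of index `j`. -/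
noncomputable def cutH (j : Fin N) (c : ℝ → ℝ → ℝ) (ψ : Equiv.Perm (Phase n)) (a : ℝ)
    (z : Phase n) : ℝ :=
  c a (b.repr z j) * kap (b j) ψ.symm (z - a • b j)

/-- `r` is an integral curve on `[0, 1]` of the time dependent Hamiltonian `H`. -/
def IsHamCurve (H : ℝ → Phase n → ℝ) (r : ℝ → Phase n) : Prop :=
  ∀ a ∈ Icc (0 : ℝ) 1, HasDerivAt r (H50.Susp.hamV (H a) (r a)) a

/-- `G` is the time one map of the Hamiltonian `H`. -/
def IsTimeOne (H : ℝ → Phase n → ℝ) (G : Equiv.Perm (Phase n)) : Prop :=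
  (∀ x, ∃ r : ℝ → Phase n, r 0 = x ∧ r 1 = G x ∧ IsHamCurve H r) ∧
    ∀ r : ℝ → Phase n, IsHamCurve H r → r 1 = G (r 0)

lemma IsTimeOne.unique {H : ℝ → Phase n → ℝ} {G G' : Equiv.Perm (Phase n)}
    (h : IsTimeOne H G) (h' : IsTimeOne H G') : G = G' := by
  ext1 x
  obtain ⟨r, r0, r1, hr⟩ := h.1 x
  rw [← r1, h'.2 r hr, r0]

/-- Families of cut-off functions: `1` for `ξ ≤ -C`, `0` for `ξ ≥ C`. -/
structure CutFam {T : Type} [TopologicalSpace T] (C : ℝ) (c : T → ℝ → ℝ → ℝ) : Prop where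
  cf : CF (fun (p : T × Icc (0 : ℝ) 1) (ξ : ℝ) => c p.1 (p.2 : ℝ) ξ)
  one : ∀ t, ∀ a ∈ Icc (0 : ℝ) 1, ∀ ξ ≤ -C, c t a ξ = 1
  zero : ∀ t, ∀ a ∈ Icc (0 : ℝ) 1, ∀ ξ ≥ C, c t a ξ = 0

/-- The standard cut-off function: `1` for `ξ ≤ 0`, `0` for `ξ ≥ 1`. -/
noncomputable def stdCut : ℝ → ℝ → ℝ := fun _ ξ => Real.smoothTransition (1 - ξ)

open Classical in
/-- The time one map of the Hamiltonian `cutH b j c ψ` (if it exists). -/
noncomputable def nxtC (j : Fin N) (c : ℝ → ℝ → ℝ) (ψ : Equiv.Perm (Phase n)) :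
    Equiv.Perm (Phase n) :=
  if h : ∃ G, IsTimeOne (cutH b j c ψ) G then h.choose else 1

lemma nxtC_eq {j : Fin N} {c : ℝ → ℝ → ℝ} {ψ G : Equiv.Perm (Phase n)}
    (h : IsTimeOne (cutH b j c ψ) G) : nxtC b j c ψ = G := by
  have h0 : ∃ G, IsTimeOne (cutH b j c ψ) G := ⟨G, h⟩
  unfold nxtC
  rw [dif_pos h0]
  exact h0.choose_spec.unique h

/-- A function equal to `1` for `ξ ≤ -δ` and to `0` for `ξ ≥ δ`. -/
noncomputable def sig (δ ξ : ℝ) : ℝ := Real.smoothTransition ((δ - ξ) / (2 * δ))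

/-- The cut-off functions of the comparison between the unwrapping of the periodization of a map
and the map itself. -/
noncomputable def cmpCut (δ s : ℝ) : ℝ → ℝ → ℝ :=
  fun a ξ => (1 - s) * stdCut a ξ + s * sig δ (ξ - a)

/-- The unwrapping of `ψ` in the direction `b j`. -/
noncomputable def nxt (j : Fin N) (ψ : Equiv.Perm (Phase n)) : Equiv.Perm (Phase n) :=
  nxtC b j stdCut ψ

lemma cmpCut_zero (δ : ℝ) : cmpCut δ 0 = stdCut := by
  funext a ξ
  simp [cmpCut]

lemma cmpCut_one (δ a ξ : ℝ) : cmpCut δ 1 a ξ = sig δ (ξ - a) := by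
  simp [cmpCut]

/-- Unwrapping of the directions `j - 1, j - 2, …, 0`. -/
noncomputable def down : ℕ → Equiv.Perm (Phase n) → Equiv.Perm (Phase n)
  | 0, ψ => ψ
  | j + 1, ψ => if h : j < N then down j (nxt b ⟨j, h⟩ ψ) else down j ψ

end lev

/-! ### Partial periodizations -/

section pers

variable {n N : ℕ} (b : Module.Basis (Fin N) ℝ (Phase n))

/-- The lattice vector with the integral parts of the coordinates of index `< j`. -/
noncomputable def flr (j : ℕ) (x : Phase n) : Phase n :=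
  ∑ i : Fin N, if (i : ℕ) < j then (⌊b.repr x i⌋ : ℝ) • b i else 0

end pers

end Pool.Agent.TOR
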