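import Mathlib
import Pool.Agent.TOR.Defs
import Pool.Agent.Helper17.DirectLimit
import Pool.Agent.Helper17.SympFamily

set_option maxSynthPendingDepth 3

open scoped ContDiff Distributions Topology
open Set Function TopologicalSpace

namespace Pool.Agent.TOR

open Pool.Agent.Helper17

/-- [Box] Bounds by compactness: a continuous function on `P × ℝ^{2n}`, `P` compact, which is
periodic in the first `j` directions is bounded on the points of `slab b j R`.
Proof: subtract the vector `flr b j x` (integral parts of the coordinates `< j`); the new point lies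
in the compact set where all coordinates have absolute value `≤ max 1 R`. -/
def St_Box : Prop :=
  ∀ {n N : ℕ} (b : Module.Basis (Fin N) ℝ (Phase n)) (j : ℕ) (R : ℝ) (P : Type)
    [TopologicalSpace P] [CompactSpace P] (F : Type) [NormedAddCommGroup F]
    (G : P × Phase n → F), Continuous G →
    (∀ p x, ∀ i : Fin N, (i : ℕ) < j → G (p, x + b i) = G (p, x)) →
    ∃ C : ℝ, ∀ p, ∀ x ∈ slab b j R, ‖G (p, x)‖ ≤ C

/-- [Curve] The isotopy `a ↦ T_a ψ T_{-a} ψ⁻¹ x` is an integral curve of the Hamiltonian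
`kap e ψ⁻¹ (z - a e)`. Proof: the derivative is `e - Dψ(ψ⁻¹ x - a e) e`, and by
`omegaStd_hamV` and the chain rule `hamV (kap e ψ⁻¹) y = e - Dψ(ψ⁻¹ y) e`. -/
def St_Curve : Prop :=
  ∀ {n : ℕ} (e : Phase n) (ψ : Equiv.Perm (Phase n)), ContDiff ℝ ∞ ψ → ContDiff ℝ ∞ ψ.symm →
    (∀ p u v : Phase n, omegaStd (fderiv ℝ ψ p u) (fderiv ℝ ψ p v) = omegaStd u v) →
    ∀ x : Phase n, IsHamCurve (fun a z => kap e ψ.symm (z - a • e))
      (fun a => ψ (ψ.symm x - a • e) + a • e)

/-- [HamFlow] Time one maps of smooth families of Hamiltonians with bounded second derivative.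
Proof: `exists_flow` for the field and for the time reversed field, `flow_ode`, uniqueness of
solutions, and the computation `hsymp` in `H50.Susp.exists_straightFam`. -/
def St_HamFlow : Prop :=
  ∀ {n : ℕ} (T : Type) [TopologicalSpace T] [CompactSpace T] (H : T → ℝ → Phase n → ℝ),
    CF (fun (p : T × Icc (0 : ℝ) 1) x => H p.1 (p.2 : ℝ) x) → ∀ ℓ : ℝ,
    (∀ t, ∀ a ∈ Icc (0 : ℝ) 1, ∀ x, ‖fderiv ℝ (H50.Susp.hamV (H t a)) x‖ ≤ ℓ) →
    ∃ G : T → Equiv.Perm (Phase n), CF (fun t x => G t x) ∧ CF (fun t x => (G t).symm x) ∧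
      (∀ t p u v, omegaStd (fderiv ℝ (G t) p u) (fderiv ℝ (G t) p v) = omegaStd u v) ∧
      ∀ t, IsTimeOne (H t) (G t)

/-- [CutBound] The cut off Hamiltonian is a smooth family with bounded second derivative.
Proof: for `ξ_j(x) > C` it vanishes near `x`, for `x ∉ slab b (j+1) R` it vanishes near `x`
(the complement of the slab is open, invariant under translations by multiples of `b j`, and the
inverse of `F t` is the identity there); for `ξ_j(x) < -C` it equals near `x` the function
`kap (b j) (F t).symm (x - a b_j)`, periodic in the directions `≤ j` (use [Box] at level `j + 1`);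
for `|ξ_j(x)| ≤ C` use [Box] at level `j` with radius `max R C`. -/
def St_CutBound : Prop :=
  ∀ {n N : ℕ} (b : Module.Basis (Fin N) ℝ (Phase n)) (j : Fin N) (T : Type)
    [TopologicalSpace T] [CompactSpace T] (F : T → Equiv.Perm (Phase n)) (R : ℝ),
    Lev b ((j : ℕ) + 1) R F → ∀ (C : ℝ) (c : T → ℝ → ℝ → ℝ), CutFam C c →
    CF (fun (p : T × Icc (0 : ℝ) 1) x => cutH b j (c p.1) (F p.1) (p.2 : ℝ) x) ∧
    ∃ ℓ : ℝ, ∀ t, ∀ a ∈ Icc (0 : ℝ) 1, ∀ x,
      ‖fderiv ℝ (H50.Susp.hamV (cutH b j (c t) (F t) a)) x‖ ≤ ℓ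

/-- [CutFlow] Unwrapping one direction, for a family and an arbitrary family of cut-offs.
Proof: [HamFlow] and [CutBound] give `G`; it commutes with `b i`, `i < j`, because the Hamiltonian
is invariant; it fixes `x` when the Hamiltonian vanishes near `x` for all times; for
`ξ_j(x) < -C - 2M` (`M` a bound of `|ξ_j(F t z - z)|`, from [Box]) the curve of [Curve] stays in
`ξ_j < -C`, hence is the integral curve, and it ends at `x` because `F t` commutes with `b j`. -/
def St_CutFlow : Prop :=
  ∀ {n N : ℕ} (b : Module.Basis (Fin N) ℝ (Phase n)) (j : Fin N) (T : Type)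
    [TopologicalSpace T] [CompactSpace T] (F : T → Equiv.Perm (Phase n)) (R : ℝ),
    Lev b ((j : ℕ) + 1) R F → ∀ (C : ℝ) (c : T → ℝ → ℝ → ℝ), CutFam C c →
    ∃ (R' : ℝ) (G : T → Equiv.Perm (Phase n)), Lev b j R' G ∧
      ∀ t, IsTimeOne (cutH b j (c t) (F t)) (G t)

/-- [Compare] With the sharp moving cut-off, unwrapping the periodization `P` gives back the
original map `f`. Proof: the integral curve through `x` is the curve of [Curve] for
`ψ₋ = (P on {ξ_j ≤ 0}, identity elsewhere)`, because `sig δ (ξ_j y) * kap e P⁻¹ y = kap e ψ₋⁻¹ y`;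
it ends at `f x`. Uniqueness of integral curves: the field is Lipschitz ([CutBound], `T = Unit`),
or use [CutFlow] for `T = Unit` to get the time one map `G` and show `G = f` by the second clause of
`IsTimeOne`. -/
def St_Compare : Prop :=
  ∀ {n N : ℕ} (b : Module.Basis (Fin N) ℝ (Phase n)) (j : Fin N)
    (f P : Equiv.Perm (Phase n)) (R δ : ℝ),
    0 < δ → δ ≤ 1 / 2 → Lev b ((j : ℕ) + 1) R (fun _ : Unit => P) →
    (∀ x, f x ≠ x → δ ≤ b.repr x j ∧ b.repr x j ≤ 1 - δ) →
    (∀ x, 0 ≤ b.repr x j → b.repr x j ≤ 1 → P x = f x) →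
    IsTimeOne (cutH b j (cmpCut δ 1) P) f

/-- [Pers] Partial periodizations of symplectomorphisms supported in a compact subset `K` of the
open box. `Q j φ x = φ (x - flr b j x) + flr b j x`. -/
def St_Pers : Prop :=
  ∀ {n N : ℕ} (b : Module.Basis (Fin N) ℝ (Phase n)) (K : Compacts (Phase n)),
    (K : Set (Phase n)) ⊆ openBox b →
    ∃ (δ : ℝ) (Q : ℕ → SympSupp n K → Equiv.Perm (Phase n)), 0 < δ ∧ δ ≤ 1 / 2 ∧
      (∀ j φ x, Q j φ x = (φ.1 : Equiv.Perm (Phase n)) (x - flr b j x) + flr b j x) ∧
      (∀ (T : Type) [TopologicalSpace T] (f : T → SympSupp n K), Continuous f →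
        ∀ j, j ≤ N → Lev b j 1 (fun t => Q j (f t))) ∧
      (∀ j φ x, Q j φ x ≠ x → ∀ i : Fin N, j ≤ (i : ℕ) →
        δ ≤ b.repr x i ∧ b.repr x i ≤ 1 - δ) ∧
      (∀ (j : Fin N) φ x, 0 ≤ b.repr x j → b.repr x j ≤ 1 →
        Q ((j : ℕ) + 1) φ x = Q (j : ℕ) φ x) ∧
      (∀ φ, Q 0 φ = φ.1) ∧
      ∀ φ, IsPer b K φ.1 (Q N φ)

/-- [TorTop] Topology of `TorusSymp b`: continuous maps into it are the smooth families, and over
compact spaces the inverses form a smooth family too (so one gets a family at level `N`); it is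
first countable, and so is `SympSupp n K`. -/
def St_TorTop : Prop :=
  ∀ {n N : ℕ} (b : Module.Basis (Fin N) ℝ (Phase n)),
    (∀ (T : Type) [TopologicalSpace T] (F : T → TorusSymp b),
      Continuous F ↔ CF (fun t x => (F t : Equiv.Perm (Phase n)) x)) ∧
    (∀ (T : Type) [TopologicalSpace T] [CompactSpace T] (F : T → TorusSymp b),
      Continuous F → ∀ R, Lev b N R (fun t => (F t : Equiv.Perm (Phase n)))) ∧
    FirstCountableTopology (TorusSymp b) ∧
    ∀ K : Compacts (Phase n), FirstCountableTopology (SympSupp n K)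

/-- [KCont] A map on a first countable space which is continuous on the images of all compact
spaces is continuous. Proof: sequences, `T = OnePoint ℕ`. -/
def St_KCont : Prop :=
  ∀ (X Y : Type) [TopologicalSpace X] [FirstCountableTopology X] [TopologicalSpace Y] (W : X → Y),
    (∀ (T : Type) [TopologicalSpace T] [CompactSpace T] (F : T → X), Continuous F →
      Continuous (W ∘ F)) → Continuous W

/-- [Dil] For `K` convex with nonempty interior the inclusion of the symplectomorphisms supported
in `K` induces bijections on homotopy classes of maps from compact spaces. Proof: conjugation with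
the dilations `x ↦ c + s (x - c)`, `c` an interior point of `K`, `0 < s ≤ 1`. -/
def St_Dil : Prop :=
  ∀ {n : ℕ} (K : Compacts (Phase n)), Convex ℝ (K : Set (Phase n)) →
    (interior (K : Set (Phase n))).Nonempty →
    ∀ (T : Type) [TopologicalSpace T] [CompactSpace T],
      (∀ f : C(T, SympCt n), ∃ g : C(T, SympSupp n K),
        f.Homotopic (ContinuousMap.comp ⟨SympSupp.incl K, SympSupp.continuous_incl K⟩ g)) ∧
      ∀ f g : C(T, SympSupp n K),
        (ContinuousMap.comp ⟨SympSupp.incl K, SympSupp.continuous_incl K⟩ f).Homotopic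
          (ContinuousMap.comp ⟨SympSupp.incl K, SympSupp.continuous_incl K⟩ g) →
        f.Homotopic g

end Pool.Agent.TOR
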