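import Mathlib
import Pool.Agent.TOR.Defs
import Pool.Agent.TOR.Stmts

set_option maxSynthPendingDepth 3

open scoped ContDiff Distributions Topology unitInterval
open Set Function TopologicalSpace

namespace Pool.Agent.TOR

open Pool.Agent.Helper17

variable {n N : ℕ} (b : Module.Basis (Fin N) ℝ (Phase n))

/-! ### The standard cut-offs -/

lemma contDiff_stdCut (a : ℝ) : ContDiff ℝ ∞ (stdCut a) :=
  Real.smoothTransition.contDiff.comp (contDiff_const.sub contDiff_id)

lemma stdCut_one {a ξ : ℝ} (h : ξ ≤ 0) : stdCut a ξ = 1 :=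
  Real.smoothTransition.one_of_one_le (by linarith)

lemma stdCut_zero {a ξ : ℝ} (h : 1 ≤ ξ) : stdCut a ξ = 0 :=
  Real.smoothTransition.zero_of_nonpos (by linarith)

lemma contDiff_sig (δ : ℝ) : ContDiff ℝ ∞ (sig δ) :=
  Real.smoothTransition.contDiff.comp ((contDiff_const.sub contDiff_id).div_const _)

lemma sig_one {δ ξ : ℝ} (hδ : 0 < δ) (h : ξ ≤ -δ) : sig δ ξ = 1 := by
  apply Real.smoothTransition.one_of_one_le
  rw [le_div_iff₀ (by linarith)]
  linarith

lemma sig_zero {δ ξ : ℝ} (hδ : 0 < δ) (h : δ ≤ ξ) : sig δ ξ = 0 := by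
  apply Real.smoothTransition.zero_of_nonpos
  exact div_nonpos_of_nonpos_of_nonneg (by linarith) (by linarith)

lemma cutFam_cmp {T : Type} [TopologicalSpace T] {δ : ℝ} (hδ : 0 < δ) (hδ' : δ ≤ 1 / 2)
    {s : T → ℝ} (hs : Continuous s) : CutFam 2 (fun t => cmpCut δ (s t)) := by
  refine ⟨?_, ?_, ?_⟩
  · have h1 : CF (fun (p : T × Icc (0 : ℝ) 1) (ξ : ℝ) =>
        (1 - s p.1) • stdCut (p.2 : ℝ) ξ) := by
      apply CF.smul
      · exact CF.param (continuous_const.sub (hs.comp continuous_fst))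
      · exact CF.const (f := stdCut 0) (contDiff_stdCut 0)
    have h2 : CF (fun (p : T × Icc (0 : ℝ) 1) (ξ : ℝ) =>
        s p.1 • sig δ (ξ - (p.2 : ℝ))) := by
      apply CF.smul
      · exact CF.param (hs.comp continuous_fst)
      · apply CF.comp_smooth (g := sig δ) (fun _ _ => (contDiff_sig δ).contDiffAt)
        exact (CF.const contDiff_id).sub
          (CF.param (continuous_subtype_val.comp continuous_snd))
    exact h1.add h2
  · intro t a ha ξ hξ
    simp only [cmpCut]
    rw [stdCut_one (by linarith), sig_one hδ (by linarith [ha.1])]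
    ring
  · intro t a ha ξ hξ
    simp only [cmpCut]
    rw [stdCut_zero (by linarith), sig_zero hδ (by linarith [ha.2])]
    ring

lemma isCompact_slab_zero (R : ℝ) : IsCompact (slab b 0 R) := by
  have h1 : slab b 0 R = (fun x => b.equivFun x) ⁻¹' (Set.pi univ fun _ => Icc (-R) R) := by
    ext x
    simp only [slab, mem_ofPred_eq, Nat.zero_le, forall_const, mem_preimage, mem_pi, mem_univ,
      mem_Icc, Module.Basis.equivFun_apply, abs_le]
  have h2 : IsCompact (Set.pi univ fun _ : Fin N => Icc (-R) R) :=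
    isCompact_univ_pi fun _ => isCompact_Icc
  have h3 : slab b 0 R = b.equivFun.symm '' (Set.pi univ fun _ => Icc (-R) R) := by
    rw [h1, ← LinearEquiv.image_symm_eq_preimage]
  rw [h3]
  exact h2.image b.equivFun.symm.toLinearMap.continuous_of_finiteDimensional

variable {b}

/-- A family at level `0` consists of compactly supported symplectomorphisms. -/
lemma Lev.isSympCt {R : ℝ} {T : Type} [TopologicalSpace T] {F : T → Equiv.Perm (Phase n)}
    (h : Lev b 0 R F) (t : T) : IsSympCt (F t) :=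
  ⟨h.cf.contDiff t, h.cf'.contDiff t, h.symp t, slab b 0 R, isCompact_slab_zero b R, h.supp t⟩

lemma Lev.base {j : ℕ} {R : ℝ} {T T' : Type} [TopologicalSpace T] [TopologicalSpace T']
    {F : T → Equiv.Perm (Phase n)} (h : Lev b j R F) {g : T' → T} (hg : Continuous g) :
    Lev b j R (fun t => F (g t)) :=
  ⟨h.cf.base hg, h.cf'.base hg, fun t => h.symp (g t), fun t => h.per (g t),
    fun t => h.supp (g t)⟩

lemma Lev.isTorusSymp {R : ℝ} {T : Type} [TopologicalSpace T] {F : T → Equiv.Perm (Phase n)}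
    (h : Lev b N R F) (t : T) : IsTorusSymp b (F t) :=
  ⟨h.cf.contDiff t, h.cf'.contDiff t, h.symp t, fun i x => h.per t i i.2 x⟩

lemma step (hFlow : St_CutFlow) {j : ℕ} (hj : j < N) {R : ℝ} {T : Type} [TopologicalSpace T]
    [CompactSpace T] {F : T → Equiv.Perm (Phase n)} (h : Lev b (j + 1) R F) {δ : ℝ} (hδ : 0 < δ)
    (hδ' : δ ≤ 1 / 2) {s : T → ℝ} (hs : Continuous s) :
    ∃ R', Lev b j R' (fun t => nxtC b ⟨j, hj⟩ (cmpCut δ (s t)) (F t)) := by
  obtain ⟨R', G, hG, hG1⟩ := hFlow b ⟨j, hj⟩ T F R h 2 _ (cutFam_cmp hδ hδ' hs)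
  refine ⟨R', ?_⟩
  have h1 : (fun t => nxtC b ⟨j, hj⟩ (cmpCut δ (s t)) (F t)) = G :=
    funext fun t => nxtC_eq b (hG1 t)
  rw [h1]
  exact hG

lemma step' (hFlow : St_CutFlow) {j : ℕ} (hj : j < N) {R : ℝ} {T : Type} [TopologicalSpace T]
    [CompactSpace T] {F : T → Equiv.Perm (Phase n)} (h : Lev b (j + 1) R F) :
    ∃ R', Lev b j R' (fun t => nxt b ⟨j, hj⟩ (F t)) := by
  have := step hFlow hj h (δ := 1 / 2) (by norm_num) le_rfl (s := fun _ => 0) continuous_const
  simpa only [cmpCut_zero, nxt] using this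

lemma down_lev (hFlow : St_CutFlow) {T : Type} [TopologicalSpace T] [CompactSpace T] :
    ∀ (j : ℕ), j ≤ N → ∀ {R : ℝ} {F : T → Equiv.Perm (Phase n)}, Lev b j R F →
      ∃ R', Lev b 0 R' (fun t => down b j (F t)) := by
  intro j
  induction j with
  | zero => intro _ R F h; exact ⟨R, h⟩
  | succ j ih =>
    intro hj R F h
    obtain ⟨R', h'⟩ := step' hFlow (Nat.lt_of_succ_le hj) h
    obtain ⟨R'', h''⟩ := ih (Nat.le_of_succ_le hj) h'
    refine ⟨R'', ?_⟩
    have h1 : (fun t => down b (j + 1) (F t)) =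
        fun t => down b j (nxt b ⟨j, Nat.lt_of_succ_le hj⟩ (F t)) := by
      funext t
      simp only [down]
      rw [dif_pos (Nat.lt_of_succ_le hj)]
    rw [h1]
    exact h''

open Classical in
/-- The permutation as an element of `SympCt n` (if it is one). -/
noncomputable def toSymp (ψ : Equiv.Perm (Phase n)) : SympCt n :=
  if h : IsSympCt ψ then ⟨ψ, h⟩ else 1

lemma toSymp_apply {ψ : Equiv.Perm (Phase n)} (h : IsSympCt ψ) :
    (toSymp ψ : Equiv.Perm (Phase n)) = ψ := by
  unfold toSymp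
  rw [dif_pos h]

lemma toSymp_coe (φ : SympCt n) : toSymp (φ : Equiv.Perm (Phase n)) = φ :=
  Subtype.ext (toSymp_apply φ.2)

lemma Lev.continuous_toSymp {R : ℝ} {T : Type} [TopologicalSpace T]
    {F : T → Equiv.Perm (Phase n)} (h : Lev b 0 R F) : Continuous (fun t => toSymp (F t)) := by
  refine continuous_of_CF h.cf ⟨slab b 0 R, isCompact_slab_zero b R⟩ h.supp ?_
  intro t x
  rw [toSymp_apply (h.isSympCt t)]

variable (b)

/-- The unwrapping map. -/
noncomputable def unwrap (ψ : TorusSymp b) : SympCt n :=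
  toSymp (down b N (ψ : Equiv.Perm (Phase n)))

variable {b}

lemma continuous_unwrap (hFlow : St_CutFlow) (hTop : St_TorTop) (hK : St_KCont) :
    Continuous (unwrap b) := by
  obtain ⟨-, h2, h3, -⟩ := hTop b
  apply hK (TorusSymp b) (SympCt n) (unwrap b)
  intro T _ _ F hF
  obtain ⟨R', h'⟩ := down_lev hFlow N le_rfl (h2 T F hF 0)
  exact h'.continuous_toSymp

/-- The main statement. -/
def MainStatement (b : Module.Basis (Fin N) ℝ (Phase n)) : Prop :=
  ∃ W : C(TorusSymp b, SympCt n), ∀ K : Compacts (Phase n), (K : Set (Phase n)) ⊆ openBox b →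
    ∃ P : C(SympSupp n K, TorusSymp b), (∀ φ, IsPer b K φ.1 (P φ)) ∧
      (W.comp P).Homotopic ⟨SympSupp.incl K, SympSupp.continuous_incl K⟩ ∧
      (Convex ℝ (K : Set (Phase n)) → (interior (K : Set (Phase n))).Nonempty →
        ∀ (T : Type) [TopologicalSpace T] [CompactSpace T],
          (∀ f : C(T, SympCt n), ∃ g : C(T, SympSupp n K),
            f.Homotopic (ContinuousMap.comp ⟨SympSupp.incl K, SympSupp.continuous_incl K⟩ g)) ∧
          ∀ f g : C(T, SympSupp n K),
            (ContinuousMap.comp ⟨SympSupp.incl K, SympSupp.continuous_incl K⟩ f).Homotopic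
              (ContinuousMap.comp ⟨SympSupp.incl K, SympSupp.continuous_incl K⟩ g) ↔
            (P.comp f).Homotopic (P.comp g))

theorem assemble (hFlow : St_CutFlow) (hCmp : St_Compare) (hPers : St_Pers) (hTop : St_TorTop)
    (hKC : St_KCont) (hDil : St_Dil) (b : Module.Basis (Fin N) ℝ (Phase n)) :
    MainStatement b := by
  obtain ⟨hT1, hT2, hT3, hT4⟩ := hTop b
  refine ⟨⟨unwrap b, continuous_unwrap hFlow hTop hKC⟩, fun K hKb => ?_⟩
  have : FirstCountableTopology (SympSupp n K) := hT4 K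
  obtain ⟨δ, Q, hδ, hδ', hQ, hQlev, hQsupp, hQeq, hQ0, hQN⟩ := hPers b K hKb
  have hlevid : ∀ j, j ≤ N → Lev b j 1 (fun φ => Q j φ) := fun j hj =>
    hQlev (SympSupp n K) id continuous_id j hj
  set P : C(SympSupp n K, TorusSymp b) :=
    ⟨fun φ => ⟨Q N φ, (hlevid N le_rfl).isTorusSymp φ⟩, by
      rw [hT1]; exact (hlevid N le_rfl).cf⟩ with hP
  -- the intermediate maps
  set S : ℕ → SympSupp n K → SympCt n := fun j φ => toSymp (down b j (Q j φ)) with hS
  have hScont : ∀ j, j ≤ N → Continuous (S j) := by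
    intro j hj
    apply hKC (SympSupp n K) (SympCt n) (S j)
    intro T _ _ f hf
    obtain ⟨R', h'⟩ := down_lev hFlow j hj (hQlev T f hf j hj)
    exact h'.continuous_toSymp
  have hstep : ∀ (j : ℕ) (hj : j < N), (⟨S (j + 1), hScont (j + 1) hj⟩ :
      C(SympSupp n K, SympCt n)).Homotopic ⟨S j, hScont j hj.le⟩ := by
    intro j hj
    set M : I × SympSupp n K → SympCt n := fun p =>
      toSymp (down b j (nxtC b ⟨j, hj⟩ (cmpCut δ (p.1 : ℝ)) (Q (j + 1) p.2))) with hM
    have hMc : Continuous M := by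
      apply hKC (I × SympSupp n K) (SympCt n) M
      intro T _ _ f hf
      have h1 : Lev b (j + 1) 1 (fun t => Q (j + 1) (f t).2) :=
        hQlev T (fun t => (f t).2) (continuous_snd.comp hf) (j + 1) hj
      obtain ⟨R', h'⟩ := step hFlow hj h1 hδ hδ' (s := fun t => ((f t).1 : ℝ))
        (continuous_subtype_val.comp (continuous_fst.comp hf))
      obtain ⟨R'', h''⟩ := down_lev hFlow j hj.le h'
      exact h''.continuous_toSymp
    refine ⟨⟨⟨M, hMc⟩, ?_, ?_⟩⟩
    · intro φ
      change toSymp (down b j (nxtC b ⟨j, hj⟩ (cmpCut δ 0) (Q (j + 1) φ))) =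
        toSymp (down b (j + 1) (Q (j + 1) φ))
      congr 1
      simp only [down]
      rw [dif_pos hj, cmpCut_zero, nxt]
    · intro φ
      change toSymp (down b j (nxtC b ⟨j, hj⟩ (cmpCut δ 1) (Q (j + 1) φ))) =
        toSymp (down b j (Q j φ))
      congr 2
      apply nxtC_eq
      exact hCmp b ⟨j, hj⟩ (Q j φ) (Q (j + 1) φ) 1 δ hδ hδ'
        (hQlev Unit (fun _ => φ) continuous_const (j + 1) hj)
        (fun x hx => hQsupp j φ x hx ⟨j, hj⟩ le_rfl)
        (fun x h0 h1 => hQeq ⟨j, hj⟩ φ x h0 h1)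
  have hall : ∀ j (hj : j ≤ N), (⟨S j, hScont j hj⟩ : C(SympSupp n K, SympCt n)).Homotopic
      ⟨S 0, hScont 0 (Nat.zero_le N)⟩ := by
    intro j
    induction j with
    | zero => intro hj; exact ContinuousMap.Homotopic.refl _
    | succ j ih =>
      intro hj
      exact (hstep j hj).trans (ih (Nat.le_of_succ_le hj))
  have hS0 : (⟨S 0, hScont 0 (Nat.zero_le N)⟩ : C(SympSupp n K, SympCt n)) =
      ⟨SympSupp.incl K, SympSupp.continuous_incl K⟩ := by
    ext1 φ
    change toSymp (down b 0 (Q 0 φ)) = φ.1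
    simp only [down]
    rw [hQ0, toSymp_coe]
  have hWP : (ContinuousMap.comp ⟨unwrap b, continuous_unwrap hFlow hTop hKC⟩ P).Homotopic
      ⟨SympSupp.incl K, SympSupp.continuous_incl K⟩ := by
    have h1 := hall N le_rfl
    rw [hS0] at h1
    exact h1
  refine ⟨P, hQN, hWP, ?_⟩
  intro hconv hint T _ _
  obtain ⟨hD1, hD2⟩ := hDil K hconv hint T
  refine ⟨hD1, fun f g => ⟨fun h => ?_, fun h => ?_⟩⟩
  · exact ContinuousMap.Homotopic.comp (ContinuousMap.Homotopic.refl P) (hD2 f g h)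
  · have h1 : ∀ f : C(T, SympSupp n K),
        (ContinuousMap.comp ⟨unwrap b, continuous_unwrap hFlow hTop hKC⟩ (P.comp f)).Homotopic
          (ContinuousMap.comp ⟨SympSupp.incl K, SympSupp.continuous_incl K⟩ f) := by
      intro f
      have := ContinuousMap.Homotopic.comp hWP (ContinuousMap.Homotopic.refl f)
      rwa [ContinuousMap.comp_assoc] at this
    exact (h1 f).symm.trans ((ContinuousMap.Homotopic.comp
      (ContinuousMap.Homotopic.refl _) h).trans (h1 g))

end Pool.Agent.TOR
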