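import Mathlib
import Pool.Agent.TOR.Stmts
import Pool.Agent.TOR.Assemble

set_option maxSynthPendingDepth 3

open scoped ContDiff Distributions Topology
open Set Function TopologicalSpace

namespace Pool.Agent.TOR

open Pool.Agent.Helper17

private lemma box_int {n N : ℕ} (b : Module.Basis (Fin N) ℝ (Phase n)) {P F : Type}
    (G : P × Phase n → F) (i : Fin N)
    (hi : ∀ p x, G (p, x + b i) = G (p, x)) (p : P) (x : Phase n) (m : ℤ) :
    G (p, x + (m : ℝ) • b i) = G (p, x) := by
  have h : Function.Periodic (fun t : ℝ => G (p, x + t • b i)) 1 := by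
    intro t
    have := hi p (x + t • b i)
    simp only
    rw [← this]
    congr 2
    rw [add_smul, one_smul, add_assoc]
  have h1 := h.int_mul m 0
  simp only [mul_one, zero_add, zero_smul, add_zero] at h1
  exact h1

private lemma box_sum {n N : ℕ} (b : Module.Basis (Fin N) ℝ (Phase n)) {P F : Type}
    (G : P × Phase n → F) (j : ℕ)
    (hG : ∀ p x, ∀ i : Fin N, (i : ℕ) < j → G (p, x + b i) = G (p, x)) (m : Fin N → ℤ)
    (s : Finset (Fin N)) (p : P) (x : Phase n) :
    G (p, x + ∑ i ∈ s, (if (i : ℕ) < j then (m i : ℝ) • b i else 0)) = G (p, x) := by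
  classical
  induction s using Finset.induction_on generalizing x with
  | empty => simp
  | insert a s ha ih =>
    rw [Finset.sum_insert ha, ← add_assoc, ih]
    by_cases h : (a : ℕ) < j
    · rw [if_pos h]
      exact box_int b G a (fun p x => hG p x a h) p x (m a)
    · rw [if_neg h, add_zero]

theorem thm_Box : St_Box := by
  intro n N b j R P _ _ F _ G hc hG
  have hK : IsCompact (Set.univ ×ˢ slab b 0 (max 1 R) : Set (P × Phase n)) :=
    isCompact_univ.prod (isCompact_slab_zero b _)
  obtain ⟨C, hC⟩ := hK.exists_bound_of_continuousOn hc.continuousOn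
  refine ⟨C, fun p x hx => ?_⟩
  have h1 : x = (x - flr b j x) + flr b j x := by abel
  have h2 : G (p, x) = G (p, x - flr b j x) := by
    conv_lhs => rw [h1]
    exact box_sum b G j hG (fun i => ⌊b.repr x i⌋) Finset.univ p (x - flr b j x)
  rw [h2]
  apply hC
  refine ⟨mem_univ _, ?_⟩
  intro i _
  have h3 : b.repr (flr b j x) i = if (i : ℕ) < j then (⌊b.repr x i⌋ : ℝ) else 0 := by
    have h4 : flr b j x = ∑ i : Fin N, (if (i : ℕ) < j then (⌊b.repr x i⌋ : ℝ) else 0) • b i := by
      unfold flr
      refine Finset.sum_congr rfl fun i _ => ?_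
      split_ifs
      · rfl
      · rw [zero_smul]
    rw [h4, b.repr_sum_self]
  have h5 : b.repr (x - flr b j x) i = b.repr x i - b.repr (flr b j x) i := by
    simp
  simp only [h5, h3]
  split_ifs with h
  · have h6 : b.repr x i - (⌊b.repr x i⌋ : ℝ) = Int.fract (b.repr x i) := rfl
    rw [h6, abs_of_nonneg (Int.fract_nonneg _)]
    exact (Int.fract_lt_one _).le.trans (le_max_left _ _)
  · rw [sub_zero]
    exact (hx i (by omega)).trans (le_max_right _ _)

end Pool.Agent.TOR
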