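import Mathlib
import Pool.Agent.TOR.Stmts
import Pool.Agent.Helper42.Susp.CFInverse

set_option maxSynthPendingDepth 3

open scoped ContDiff Distributions Topology
open Set Function TopologicalSpace Filter

namespace Pool.Agent.TOR

open Pool.Agent.Helper17

/-- Joint continuity of the inverses of a continuous family of bijections with bounded
displacement. -/
lemma tor_continuous_inverse {T : Type} [TopologicalSpace T] {E : Type} [NormedAddCommGroup E]
    [NormedSpace ℝ E] [FiniteDimensional ℝ E] {F G : T → E → E}
    (hF : Continuous (fun p : T × E => F p.1 p.2)) {M : ℝ}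
    (hM : ∀ t x, ‖F t x - x‖ ≤ M) (hFG : ∀ t x, F t (G t x) = x)
    (hGF : ∀ t x, G t (F t x) = x) :
    Continuous (fun p : T × E => G p.1 p.2) := by
  have : ProperSpace E := FiniteDimensional.proper ℝ E
  rw [continuous_iff_continuousAt]
  rintro ⟨t₀, y₀⟩
  rw [ContinuousAt, tendsto_def]
  intro s hs
  obtain ⟨U, hUs, hU, hxU⟩ := mem_nhds_iff.1 hs
  simp only at hxU
  have hC : IsCompact (Metric.closedBall y₀ (1 + M) \ U) :=
    (isCompact_closedBall y₀ (1 + M)).diff hU
  have h1 : ∀ᶠ q : T × E in 𝓝 (t₀, y₀), ∀ x ∈ Metric.closedBall y₀ (1 + M) \ U,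
      F q.1 x ≠ q.2 := by
    apply hC.eventually_forall_of_forall_eventually
    intro x hx
    have h2 : F t₀ x ≠ y₀ := by
      intro h
      apply hx.2
      have h3 : x = G t₀ y₀ := by rw [← h, hGF]
      rw [h3]
      exact hxU
    have hc' : Continuous (fun z : (T × E) × E => F z.1.1 z.2 - z.1.2) := by
      apply Continuous.sub _ (continuous_snd.comp continuous_fst)
      exact hF.comp ((continuous_fst.comp continuous_fst).prodMk continuous_snd)
    have hne : F t₀ x - y₀ ≠ 0 := sub_ne_zero.2 h2
    have := (hc'.continuousAt (x := ((t₀, y₀), x))).eventually_ne hne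
    filter_upwards [this] with z hz
    exact sub_ne_zero.1 hz
  have h3 : ∀ᶠ q : T × E in 𝓝 (t₀, y₀), q.2 ∈ Metric.closedBall y₀ 1 :=
    continuous_snd.continuousAt.eventually_mem (Metric.closedBall_mem_nhds y₀ one_pos)
  filter_upwards [h1, h3] with q hq1 hq2
  apply hUs
  by_contra hneg
  have h4 : G q.1 q.2 ∈ Metric.closedBall y₀ (1 + M) := by
    have h5 := hM q.1 (G q.1 q.2)
    rw [hFG] at h5
    rw [Metric.mem_closedBall] at hq2 ⊢
    have h6 : dist (G q.1 q.2) q.2 ≤ M := by
      rw [dist_comm, dist_eq_norm]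
      exact h5
    calc dist (G q.1 q.2) y₀ ≤ dist (G q.1 q.2) q.2 + dist q.2 y₀ := dist_triangle _ _ _
      _ ≤ 1 + M := by linarith
  exact hq1 _ ⟨h4, hneg⟩ (hFG q.1 q.2)

/-- The inverses of a smooth family of diffeomorphisms with bounded displacement form a smooth
family. -/
theorem tor_CF_inverse {T : Type} [TopologicalSpace T] {E : Type} [NormedAddCommGroup E]
    [NormedSpace ℝ E] [FiniteDimensional ℝ E] {F G : T → E → E} (hF : CF F) {M : ℝ}
    (hM : ∀ t x, ‖F t x - x‖ ≤ M) (hinj : ∀ t x, Injective (fderiv ℝ (F t) x))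
    (hFG : ∀ t x, F t (G t x) = x) (hGF : ∀ t x, G t (F t x) = x) : CF G := by
  have : CompleteSpace E := FiniteDimensional.complete ℝ E
  have hc := tor_continuous_inverse hF.continuous hM hFG hGF
  have hd : ∀ t y, HasFDerivAt (G t) (ContinuousLinearMap.inverse (fderiv ℝ (F t) (G t y))) y := by
    intro t y
    have h1 := coe_cleOfInjective _ (hinj t (G t y))
    have h2 : HasFDerivAt (F t) ((cleOfInjective _ (hinj t (G t y)) : E ≃L[ℝ] E) : E →L[ℝ] E)
        (G t y) := by
      rw [h1]
      exact (hF.differentiable t _).hasFDerivAt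
    have h3 := HasFDerivAt.of_local_left_inverse (g := G t) (a := y)
      (hc.comp (Continuous.prodMk_right t)).continuousAt h2
      (Eventually.of_forall fun z => hFG t z)
    rw [← h1, ContinuousLinearMap.inverse_equiv]
    exact h3
  intro k
  induction k with
  | zero => exact hc
  | succ k ih =>
    refine ⟨hc, fun t y => (hd t y).differentiableAt, ?_⟩
    have h1 : CFk T E k (E →L[ℝ] E) (fun t y => fderiv ℝ (F t) (G t y)) :=
      CFk.comp (hF.fderiv k) ih
    have h2 : CFk T E k (E →L[ℝ] E)
        (fun t y => ContinuousLinearMap.inverse (fderiv ℝ (F t) (G t y))) := by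
      refine CFk.comp_smooth (g := ContinuousLinearMap.inverse) (fun t y => ?_) h1
      rw [← coe_cleOfInjective _ (hinj t (G t y))]
      exact contDiffAt_map_inverse _
    have h3 : (fun t y => fderiv ℝ (G t) y) =
        (fun t y => ContinuousLinearMap.inverse (fderiv ℝ (F t) (G t y))) := by
      funext t y
      exact (hd t y).fderiv
    rw [h3]
    exact h2

lemma tor_cont_iff {n N : ℕ} (b : Module.Basis (Fin N) ℝ (Phase n)) (T : Type)
    [TopologicalSpace T] (F : T → TorusSymp b) :
    Continuous F ↔ CF (fun t x => (F t : Equiv.Perm (Phase n)) x) := by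
  have h0 : Continuous F ↔ ∀ k, Continuous (fun t => jet b k (F t)) := by
    rw [continuous_iInf_rng]
    exact forall_congr' fun k => continuous_induced_rng
  rw [h0]
  constructor
  · intro h k
    apply CFk.of_iteratedFDeriv
    · intro t
      exact (F t).2.1
    · intro i
      exact Continuous.eval ((h i).comp continuous_fst) continuous_snd
  · intro h k
    apply ContinuousMap.continuous_of_continuous_uncurry
    exact h.continuous_iteratedFDeriv k

lemma tor_firstCountable_torus {n N : ℕ} (b : Module.Basis (Fin N) ℝ (Phase n)) :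
    FirstCountableTopology (TorusSymp b) := by
  have h1 : (inferInstance : TopologicalSpace (TorusSymp b)) =
      TopologicalSpace.induced (fun ψ k => jet b k ψ) inferInstance := by
    rw [induced_to_pi]
    rfl
  have h2 := TopologicalSpace.firstCountableTopology_induced (TorusSymp b)
    (∀ k : ℕ, C(Phase n, Phase n [×k]→L[ℝ] Phase n)) (fun ψ k => jet b k ψ)
  rw [← h1] at h2
  exact h2

lemma tor_firstCountable_supp {n : ℕ} (K : Compacts (Phase n)) :
    FirstCountableTopology (SympSupp n K) := by
  have h0 : FirstCountableTopology 𝓓_{K}(Phase n, Phase n) := by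
    exact (ContDiffMapSupportedIn.withSeminorms ℝ (Phase n) (Phase n) ⊤ K).firstCountableTopology
  exact TopologicalSpace.firstCountableTopology_induced _ _ _

theorem thm_TorTop (hBox : St_Box) : St_TorTop := by
  intro n N b
  refine ⟨fun T _ F => tor_cont_iff b T F, ?_, tor_firstCountable_torus b,
    fun K => tor_firstCountable_supp K⟩
  intro T _ _ F hF R
  have hcf := (tor_cont_iff b T F).1 hF
  have hslab : ∀ x, x ∈ slab b N R := by
    intro x i hi
    exact absurd i.2 (not_lt.2 hi)
  obtain ⟨M, hM⟩ := hBox b N R T (Phase n)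
    (fun p => (F p.1 : Equiv.Perm (Phase n)) p.2 - p.2)
    (hcf.continuous.sub continuous_snd) (by
      intro p x i _
      simp only
      rw [(F p).2.2.2.2 i x]
      abel)
  have hsymp : ∀ t p u v, omegaStd (fderiv ℝ (F t : Equiv.Perm (Phase n)) p u)
      (fderiv ℝ (F t : Equiv.Perm (Phase n)) p v) = omegaStd u v := fun t => (F t).2.2.2.1
  refine ⟨hcf, ?_, hsymp, ?_, ?_⟩
  · refine tor_CF_inverse hcf (M := M) (fun t x => hM t x (hslab x)) ?_ ?_ ?_
    · intro t z
      rw [injective_iff_map_eq_zero]
      intro u hu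
      apply eq_zero_of_omegaStd
      intro v
      rw [← hsymp t z u v, hu, omegaStd_zero_left]
    · intro t x
      exact Equiv.apply_symm_apply _ _
    · intro t x
      exact Equiv.symm_apply_apply _ _
  · intro t i _ x
    exact (F t).2.2.2.2 i x
  · intro t x hx
    exact absurd (hslab x) hx

end Pool.Agent.TOR
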