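import Mathlib
import Pool.Agent.TOR.Stmts

set_option maxSynthPendingDepth 3

/-!
# TOR / HamFlow: time one maps of smooth families of Hamiltonians
-/

open scoped ContDiff Distributions Topology NNReal
open Set Function TopologicalSpace

namespace Pool.Agent.TOR

open Pool.Agent.Helper17

section flow

variable {T : Type} [TopologicalSpace T]
  {E : Type} [NormedAddCommGroup E] [NormedSpace ℝ E]

/-- uniqueness of integral curves on `[0, 1]` -/
lemma ham_unique {X : T × Icc (0 : ℝ) 1 → E → E} (hX : CF X) {ℓ : ℝ}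
    (hℓ : ∀ p x, ‖fderiv ℝ (X p) x‖ ≤ ℓ) (t : T) {r r' : ℝ → E}
    (h : ∀ s ∈ Icc (0 : ℝ) 1, HasDerivAt r (X (t, pr s) (r s)) s)
    (h' : ∀ s ∈ Icc (0 : ℝ) 1, HasDerivAt r' (X (t, pr s) (r' s)) s) (h0 : r 0 = r' 0) :
    r 1 = r' 1 := by
  have hL : ∀ s : ℝ, LipschitzWith (Real.toNNReal |ℓ|) (X (t, pr s)) := by
    intro s
    apply LipschitzWith.of_dist_le_mul
    intro x y
    rw [dist_eq_norm, dist_eq_norm, Real.coe_toNNReal _ (abs_nonneg ℓ)]
    exact convex_univ.norm_image_sub_le_of_norm_fderiv_le (𝕜 := ℝ)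
      (fun z _ => hX.differentiable _ z) (fun z _ => (hℓ _ z).trans (le_abs_self ℓ))
      (mem_univ y) (mem_univ x)
  have h1 : EqOn r r' (Icc 0 1) :=
    ODE_solution_unique (v := fun s => X (t, pr s)) hL
    (fun s hs => (h s hs).continuousAt.continuousWithinAt)
    (fun s hs => (h s (Ico_subset_Icc_self hs)).hasDerivWithinAt)
    (fun s hs => (h' s hs).continuousAt.continuousWithinAt)
    (fun s hs => (h' s (Ico_subset_Icc_self hs)).hasDerivWithinAt) h0
  exact h1 (right_mem_Icc.2 zero_le_one)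

omit [TopologicalSpace T] in
/-- reversal of time -/
lemma ham_reverse {X : T × Icc (0 : ℝ) 1 → E → E} (t : T) {r : ℝ → E}
    (h : ∀ s ∈ Icc (0 : ℝ) 1, HasDerivAt r (X (t, pr s) (r s)) s) :
    ∀ s ∈ Icc (0 : ℝ) 1, HasDerivAt (fun s => r (1 - s))
      (-(X (t, pr (1 - s)) (r (1 - s)))) s := by
  intro s hs
  have hs' : 1 - s ∈ Icc (0 : ℝ) 1 := ⟨by linarith [hs.2], by linarith [hs.1]⟩
  have h1 : HasDerivAt (fun s : ℝ => 1 - s) (-1) s := by
    simpa using (hasDerivAt_id s).const_sub 1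
  have h2 := (h (1 - s) hs').scomp s h1
  simpa [Function.comp_def] using h2

lemma ham_pr_symm (s : ℝ) (hs : s ∈ Icc (0 : ℝ) 1) :
    unitInterval.symm (pr s) = pr (1 - s) := by
  have hs' : 1 - s ∈ Icc (0 : ℝ) 1 := ⟨by linarith [hs.2], by linarith [hs.1]⟩
  apply Subtype.ext
  rw [unitInterval.coe_symm_eq, pr_of_mem hs, pr_of_mem hs']

end flow

/-- keep this signature -/
theorem thm_HamFlow : St_HamFlow := by
  intro n T _ _ H hH ℓ hℓ
  set X : T × Icc (0 : ℝ) 1 → Phase n → Phase n :=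
    fun p x => H50.Susp.hamV (H p.1 (p.2 : ℝ)) x with hXdef
  have hX : CF X := H50.Susp.CF_hamV hH
  have hXb : ∀ p x, ‖fderiv ℝ (X p) x‖ ≤ ℓ := fun p x => hℓ p.1 p.2 p.2.2 x
  obtain ⟨ρ, hρ, hρi, -⟩ := exists_flow X hX hXb
  -- reversed field
  set Y : T × Icc (0 : ℝ) 1 → Phase n → Phase n :=
    fun p x => -(X (p.1, unitInterval.symm p.2) x) with hYdef
  have hbase : Continuous (fun p : T × Icc (0 : ℝ) 1 =>
      ((p.1, unitInterval.symm p.2) : T × Icc (0 : ℝ) 1)) :=
    continuous_fst.prodMk (unitInterval.continuous_symm.comp continuous_snd)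
  have hY : CF Y := (hX.base hbase).clm (-(ContinuousLinearMap.id ℝ (Phase n)))
  have hYb : ∀ p x, ‖fderiv ℝ (Y p) x‖ ≤ ℓ := by
    intro p x
    have h1 : fderiv ℝ (Y p) x = -fderiv ℝ (X (p.1, unitInterval.symm p.2)) x :=
      fderiv_fun_neg
    rw [h1, norm_neg]
    exact hXb _ _
  obtain ⟨σ, hσ, hσi, -⟩ := exists_flow Y hY hYb
  have hode : ∀ t x, ∃ (r : ℝ → Phase n) (A : ℝ → Phase n →L[ℝ] Phase n),
      r 0 = x ∧ r 1 = ρ (t, 1) x ∧ (∀ s ∈ Icc (0 : ℝ) 1, HasDerivAt r (X (t, pr s) (r s)) s) ∧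
      A 0 = ContinuousLinearMap.id ℝ (Phase n) ∧ A 1 = fderiv ℝ (ρ (t, 1)) x ∧
      ∀ s ∈ Icc (0 : ℝ) 1, HasDerivAt A ((fderiv ℝ (X (t, pr s)) (r s)).comp (A s)) s := by
    intro t x
    obtain ⟨r, A, h1, h2, h3, h4, h5, h6⟩ := flow_ode hX hρ hρi t x
    refine ⟨r, A, h5, by simpa using h1 1, ?_, h6, by simpa using h2 1, ?_⟩
    · intro s hs
      have e : pr s = ⟨s, hs⟩ := Subtype.ext (pr_of_mem hs)
      rw [e]
      exact h3 ⟨s, hs⟩
    · intro s hs
      have e : pr s = ⟨s, hs⟩ := Subtype.ext (pr_of_mem hs)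
      rw [e]
      exact h4 ⟨s, hs⟩
  have hode' : ∀ t x, ∃ r : ℝ → Phase n,
      r 0 = x ∧ r 1 = σ (t, 1) x ∧ (∀ s ∈ Icc (0 : ℝ) 1, HasDerivAt r (Y (t, pr s) (r s)) s) := by
    intro t x
    obtain ⟨r, A, h1, h2, h3, h4, h5, h6⟩ := flow_ode hY hσ hσi t x
    refine ⟨r, h5, by simpa using h1 1, ?_⟩
    intro s hs
    have e : pr s = ⟨s, hs⟩ := Subtype.ext (pr_of_mem hs)
    rw [e]
    exact h3 ⟨s, hs⟩
  have hleft : ∀ t x, σ (t, 1) (ρ (t, 1) x) = x := by
    intro t x
    obtain ⟨r, A, r0, r1, hr, -⟩ := hode t x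
    obtain ⟨q, q0, q1, hq⟩ := hode' t (ρ (t, 1) x)
    have h1 := ham_unique hY hYb t (r := q) (r' := fun s => r (1 - s)) hq (by
      intro s hs
      have h2 := ham_reverse t hr s hs
      rw [← ham_pr_symm s hs] at h2
      exact h2) (by rw [q0, sub_zero, r1])
    rw [← q1, h1, sub_self, r0]
  have hright : ∀ t x, ρ (t, 1) (σ (t, 1) x) = x := by
    intro t x
    obtain ⟨q, q0, q1, hq⟩ := hode' t x
    obtain ⟨r, A, r0, r1, hr, -⟩ := hode t (σ (t, 1) x)
    have h1 := ham_unique hX hXb t (r := r) (r' := fun s => q (1 - s)) hr (by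
      intro s hs
      have h2 := ham_reverse t hq s hs
      refine h2.congr_deriv ?_
      have hs' : 1 - s ∈ Icc (0 : ℝ) 1 := ⟨by linarith [hs.2], by linarith [hs.1]⟩
      simp only [hYdef, neg_neg]
      rw [ham_pr_symm (1 - s) hs', sub_sub_cancel]) (by rw [r0, sub_zero, q1])
    rw [← r1, h1, sub_self, q0]
  set G : T → Equiv.Perm (Phase n) := fun t => ⟨ρ (t, 1), σ (t, 1), hleft t, hright t⟩ with hG
  refine ⟨G, hρ.base (continuous_id.prodMk continuous_const),
    hσ.base (continuous_id.prodMk continuous_const), ?_, ?_⟩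
  · intro t p u v
    obtain ⟨r, A, r0, -, hr, A0, A1, hA⟩ := hode t p
    have hder : ∀ s ∈ Icc (0 : ℝ) 1, HasDerivAt (fun s => omegaStd (A s u) (A s v)) 0 s := by
      intro s hs
      set D := fderiv ℝ (X (t, pr s)) (r s) with hD
      have hau : HasDerivAt (fun s => A s u) ((D.comp (A s)) u) s := by
        have := (hA s hs).clm_apply (hasDerivAt_const s u)
        simpa using this
      have hav : HasDerivAt (fun s => A s v) ((D.comp (A s)) v) s := by
        have := (hA s hs).clm_apply (hasDerivAt_const s v)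
        simpa using this
      have h1 : HasDerivAt (fun s => omegaStd (A s u) (A s v))
          (omegaStd ((D.comp (A s)) u) (A s v) + omegaStd (A s u) ((D.comp (A s)) v)) s := by
        exact ((omegaB n).hasFDerivAt.comp_hasDerivAt s hau).clm_apply hav
      refine h1.congr_deriv ?_
      exact H50.Susp.fderiv_hamV_symm (hH.contDiff (t, pr s)) (r s) (A s u) (A s v)
    have hconst := (convex_Icc (0 : ℝ) 1).norm_image_sub_le_of_norm_hasDerivWithin_le
      (f := fun s => omegaStd (A s u) (A s v)) (f' := fun _ => 0) (C := 0)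
      (fun t ht => (hder t ht).hasDerivWithinAt)
      (fun t _ => by simp) (left_mem_Icc.2 zero_le_one) (right_mem_Icc.2 zero_le_one)
    rw [zero_mul, norm_le_zero_iff, sub_eq_zero] at hconst
    change omegaStd (fderiv ℝ (ρ (t, 1)) p u) (fderiv ℝ (ρ (t, 1)) p v) = _
    rw [← A1, hconst, A0]
    simp
  · intro t
    have hcurve : ∀ r : ℝ → Phase n, IsHamCurve (H t) r ↔
        ∀ s ∈ Icc (0 : ℝ) 1, HasDerivAt r (X (t, pr s) (r s)) s := by
      intro r
      unfold IsHamCurve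
      constructor
      · intro h s hs
        have := h s hs
        simp only [hXdef, pr_of_mem hs]
        exact this
      · intro h s hs
        have := h s hs
        simp only [hXdef, pr_of_mem hs] at this
        exact this
    constructor
    · intro x
      obtain ⟨r, A, r0, r1, hr, -⟩ := hode t x
      exact ⟨r, r0, r1, (hcurve r).2 hr⟩
    · intro r hr
      obtain ⟨r', A, r0, r1, hr', -⟩ := hode t (r 0)
      have h1 := ham_unique hX hXb t ((hcurve r).1 hr) hr' r0.symm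
      rw [h1, r1]
      rfl

end Pool.Agent.TOR
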