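import Mathlib
import Pool.Agent.TOR.Stmts

set_option maxSynthPendingDepth 3

open scoped ContDiff Distributions Topology
open Set Function TopologicalSpace Filter

namespace Pool.Agent.TOR

open Pool.Agent.Helper17

section cutflow

variable {n N : ℕ}

lemma cut_flow_hamV_congr {f g : Phase n → ℝ} {p : Phase n} (h : f =ᶠ[𝓝 p] g) :
    H50.Susp.hamV f p = H50.Susp.hamV g p := by
  unfold H50.Susp.hamV
  rw [h.fderiv_eq]

lemma cut_flow_hamV_zero {f : Phase n → ℝ} {p : Phase n} (h : f =ᶠ[𝓝 p] fun _ => 0) :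
    H50.Susp.hamV f p = 0 := by
  rw [cut_flow_hamV_congr h]
  unfold H50.Susp.hamV
  simp

lemma cut_flow_hamV_add {f : Phase n → ℝ} {v : Phase n} (h : ∀ z, f (z + v) = f z)
    (p : Phase n) : H50.Susp.hamV f (p + v) = H50.Susp.hamV f p := by
  unfold H50.Susp.hamV
  have h1 : (fun z => f (z + v)) = f := funext h
  have h2 : fderiv ℝ (fun z => f (z + v)) p = fderiv ℝ f (p + v) := fderiv_comp_add_right v
  rw [← h2, h1]

lemma cut_flow_trans {H : ℝ → Phase n → ℝ} {G : Equiv.Perm (Phase n)} (hG : IsTimeOne H G)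
    {v : Phase n} (hv : ∀ a ∈ Icc (0 : ℝ) 1, ∀ z, H a (z + v) = H a z) (x : Phase n) :
    G (x + v) = G x + v := by
  obtain ⟨r, r0, r1, hr⟩ := hG.1 x
  have h1 : IsHamCurve H (fun a => r a + v) := by
    intro a ha
    have := (hr a ha).add_const v
    change HasDerivAt (fun a => r a + v) (H50.Susp.hamV (H a) (r a + v)) a
    rw [cut_flow_hamV_add (hv a ha)]
    exact this
  have h2 := hG.2 _ h1
  simp only [r0, r1] at h2
  exact h2.symm

lemma cut_flow_fix {H : ℝ → Phase n → ℝ} {G : Equiv.Perm (Phase n)} (hG : IsTimeOne H G)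
    {x : Phase n} (hx : ∀ a ∈ Icc (0 : ℝ) 1, H a =ᶠ[𝓝 x] fun _ => 0) : G x = x := by
  have h1 : IsHamCurve H (fun _ => x) := by
    intro a ha
    rw [cut_flow_hamV_zero (hx a ha)]
    exact hasDerivAt_const a x
  exact (hG.2 _ h1).symm

variable (b : Module.Basis (Fin N) ℝ (Phase n))

lemma cut_flow_repr_cont (i : Fin N) : Continuous (fun z : Phase n => b.repr z i) := by
  have : Continuous (b.coord i) := LinearMap.continuous_of_finiteDimensional _
  exact this

lemma cut_flow_repr_add (z : Phase n) (a : ℝ) (i k : Fin N) :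
    b.repr (z + a • b i) k = b.repr z k + a * (if i = k then 1 else 0) := by
  rw [map_add, map_smul, Module.Basis.repr_self, Finsupp.add_apply, Finsupp.smul_apply,
    Finsupp.single_apply, smul_eq_mul]

lemma cut_flow_repr_sub (z : Phase n) (a : ℝ) (i k : Fin N) :
    b.repr (z - a • b i) k = b.repr z k - a * (if i = k then 1 else 0) := by
  rw [map_sub, map_smul, Module.Basis.repr_self, Finsupp.sub_apply, Finsupp.smul_apply,
    Finsupp.single_apply, smul_eq_mul]

variable {b}

lemma cut_flow_symm_add {ψ : Equiv.Perm (Phase n)} {v : Phase n}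
    (h : ∀ x, ψ (x + v) = ψ x + v) (x : Phase n) : ψ.symm (x + v) = ψ.symm x + v := by
  rw [Equiv.symm_apply_eq, h, Equiv.apply_symm_apply]

lemma cut_flow_cutH_add {j : Fin N} {c : ℝ → ℝ → ℝ} {ψ : Equiv.Perm (Phase n)} {i : Fin N}
    (hij : i ≠ j) (h : ∀ x, ψ (x + b i) = ψ x + b i) (a : ℝ) (z : Phase n) :
    cutH b j c ψ a (z + b i) = cutH b j c ψ a z := by
  unfold cutH kap
  have h1 : b.repr (z + b i) j = b.repr z j := by
    have := cut_flow_repr_add b z 1 i j
    rw [one_smul, if_neg hij] at this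
    rw [this]; ring
  have h2 : z + b i - a • b j = (z - a • b j) + b i := by abel
  rw [h1, h2, cut_flow_symm_add h]
  congr 2
  abel

/-- The Hamiltonian vanishes near `x` if a coordinate of index `> j` is large. -/
lemma cut_flow_far {j : Fin N} {c : ℝ → ℝ → ℝ} {ψ : Equiv.Perm (Phase n)} {R : ℝ}
    (hsupp : ∀ x ∉ slab b ((j : ℕ) + 1) R, ψ x = x) {x : Phase n} {i : Fin N}
    (hi : (j : ℕ) + 1 ≤ (i : ℕ)) (hx : R < |b.repr x i|) (a : ℝ) :
    cutH b j c ψ a =ᶠ[𝓝 x] fun _ => 0 := by
  have ho : IsOpen {z : Phase n | R < |b.repr z i|} :=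
    isOpen_lt continuous_const (cut_flow_repr_cont b i).abs
  filter_upwards [ho.mem_nhds hx] with z hz
  have hne : j ≠ i := by
    intro h; rw [h] at hi; omega
  have h1 : z - a • b j ∉ slab b ((j : ℕ) + 1) R := by
    intro h
    have h2 := h i hi
    rw [cut_flow_repr_sub, if_neg hne, mul_zero, sub_zero] at h2
    exact absurd h2 (not_le.2 hz)
  have h2 : ψ.symm (z - a • b j) = z - a • b j := by
    rw [Equiv.symm_apply_eq]
    exact (hsupp _ h1).symm
  unfold cutH kap
  rw [h2, sub_self, omegaStd_zero_left, mul_zero]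

lemma cut_flow_right {j : Fin N} {c : ℝ → ℝ → ℝ} {ψ : Equiv.Perm (Phase n)} {C a : ℝ}
    (hc : ∀ ξ ≥ C, c a ξ = 0) {x : Phase n} (hx : C < b.repr x j) :
    cutH b j c ψ a =ᶠ[𝓝 x] fun _ => 0 := by
  have ho : IsOpen {z : Phase n | C < b.repr z j} :=
    isOpen_lt continuous_const (cut_flow_repr_cont b j)
  filter_upwards [ho.mem_nhds hx] with z hz
  unfold cutH
  rw [hc _ (le_of_lt hz), zero_mul]

lemma cut_flow_left {j : Fin N} {c : ℝ → ℝ → ℝ} {ψ : Equiv.Perm (Phase n)} {C a : ℝ}
    (hc : ∀ ξ ≤ -C, c a ξ = 1) {x : Phase n} (hx : b.repr x j < -C) :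
    cutH b j c ψ a =ᶠ[𝓝 x] fun z => kap (b j) ψ.symm (z - a • b j) := by
  have ho : IsOpen {z : Phase n | b.repr z j < -C} :=
    isOpen_lt (cut_flow_repr_cont b j) continuous_const
  filter_upwards [ho.mem_nhds hx] with z hz
  unfold cutH
  rw [hc _ (le_of_lt hz), one_mul]

theorem thm_CutFlow (hBox : St_Box) (hCurve : St_Curve) (hHam : St_HamFlow)
    (hCB : St_CutBound) : St_CutFlow := by
  intro n N b j T _ _ F R hF C c hc
  obtain ⟨hCF, ℓ, hℓ⟩ := hCB b j T F R hF C c hc
  obtain ⟨G, hG, hG', hGs, hG1⟩ := hHam T (fun t a x => cutH b j (c t) (F t) a x) hCF ℓ hℓ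
  -- bound of the displacement in the direction `j`
  have hM : ∃ M : ℝ, 0 ≤ M ∧ ∀ t x, |b.repr (F t x) j - b.repr x j| ≤ M := by
    have hcont : Continuous (fun p : T × Phase n => b.repr (F p.1 p.2) j - b.repr p.2 j) :=
      ((cut_flow_repr_cont b j).comp hF.cf.continuous).sub
        ((cut_flow_repr_cont b j).comp continuous_snd)
    have hper : ∀ (p : T) (x : Phase n), ∀ i : Fin N, (i : ℕ) < (j : ℕ) + 1 →
        (fun p : T × Phase n => b.repr (F p.1 p.2) j - b.repr p.2 j) (p, x + b i) =
        (fun p : T × Phase n => b.repr (F p.1 p.2) j - b.repr p.2 j) (p, x) := by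
      intro p x i hi
      simp only
      rw [hF.per p i hi x]
      simp only [map_add, Finsupp.add_apply]
      ring
    obtain ⟨M, hM⟩ := hBox b ((j : ℕ) + 1) R T ℝ _ hcont hper
    refine ⟨max M 0, le_max_right _ _, fun t x => ?_⟩
    by_cases hx : x ∈ slab b ((j : ℕ) + 1) R
    · exact (hM t x hx).trans (le_max_left _ _)
    · rw [hF.supp t x hx, sub_self, abs_zero]
      exact le_max_right _ _
  obtain ⟨M, hM0, hM⟩ := hM
  refine ⟨max R (|C| + 2 * M + 1), G, ⟨hG, hG', hGs, ?_, ?_⟩, hG1⟩
  · intro t i hi x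
    apply cut_flow_trans (hG1 t)
    intro a _ z
    apply cut_flow_cutH_add
    · intro h; rw [h] at hi; exact lt_irrefl _ hi
    · exact hF.per t i (by omega)
  · intro t x hx
    have hx' : ∃ i : Fin N, (j : ℕ) ≤ (i : ℕ) ∧ max R (|C| + 2 * M + 1) < |b.repr x i| := by
      by_contra hcon
      push Not at hcon
      exact hx hcon
    obtain ⟨i, hji, hi⟩ := hx'
    rcases Nat.eq_or_lt_of_le hji with h | h
    · have hij : i = j := Fin.ext h.symm
      subst hij
      have h2 : |C| + 2 * M + 1 < |b.repr x i| := lt_of_le_of_lt (le_max_right _ _) hi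
      have hCa : C ≤ |C| := le_abs_self C
      rcases le_or_gt 0 (b.repr x i) with h0 | h0
      · rw [abs_of_nonneg h0] at h2
        apply cut_flow_fix (hG1 t)
        intro a ha
        exact cut_flow_right (C := C) (hc.zero t a ha) (by linarith)
      · rw [abs_of_neg h0] at h2
        have hr0 := hCurve (b i) (F t) (hF.cf.contDiff t) (hF.cf'.contDiff t) (hF.symp t) x
        have hr : IsHamCurve (fun a z => cutH b i (c t) (F t) a z)
            (fun a => F t ((F t).symm x - a • b i) + a • b i) := by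
          intro a ha
          have h3 := hr0 a ha
          have h4 : b.repr (F t ((F t).symm x - a • b i) + a • b i) i < -C := by
            have e1 := cut_flow_repr_add b (F t ((F t).symm x - a • b i)) a i i
            have e2 := cut_flow_repr_sub b ((F t).symm x) a i i
            have e3 := hM t ((F t).symm x - a • b i)
            have e4 := hM t ((F t).symm x)
            rw [Equiv.apply_symm_apply] at e4
            rw [if_pos rfl, mul_one] at e1 e2
            rw [e1]
            rw [e2] at e3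
            have e3' := (abs_le.1 e3).2
            have e4' := (abs_le.1 e4).1
            linarith
          have h5 := cut_flow_left (b := b) (ψ := F t) (hc.one t a ha) h4
          have h6 := cut_flow_hamV_congr h5
          change HasDerivAt _ (H50.Susp.hamV (cutH b i (c t) (F t) a) _) a
          rw [h6]
          exact h3
        have h7 : F t ((F t).symm x - (1 : ℝ) • b i) + (1 : ℝ) • b i =
            G t (F t ((F t).symm x - (0 : ℝ) • b i) + (0 : ℝ) • b i) := (hG1 t).2 _ hr
        have h8 : F t ((F t).symm x - (1 : ℝ) • b i) + (1 : ℝ) • b i = x := by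
          rw [one_smul, ← hF.per t i (Nat.lt_succ_self _), sub_add_cancel,
            Equiv.apply_symm_apply]
        have h9 : F t ((F t).symm x - (0 : ℝ) • b i) + (0 : ℝ) • b i = x := by
          rw [zero_smul, sub_zero, add_zero, Equiv.apply_symm_apply]
        rw [h8, h9] at h7
        exact h7.symm
    · apply cut_flow_fix (hG1 t)
      intro a _
      exact cut_flow_far (hF.supp t) (i := i) h (lt_of_le_of_lt (le_max_left _ _) hi) a

end cutflow

end Pool.Agent.TOR
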