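import Mathlib
import Pool.Agent.TOR.Defs
import Pool.Agent.TOR.Stmts
import Pool.Agent.Helper42.Susp.CFInverse

set_option maxSynthPendingDepth 3

open scoped ContDiff Distributions Topology
open Set Function TopologicalSpace Filter

namespace Pool.Agent.TOR

open Pool.Agent.Helper17

section local_lemma

variable {T : Type} [TopologicalSpace T] {E : Type} [NormedAddCommGroup E] [NormedSpace ℝ E]

/-- Locality in the space variable. -/
lemma per_CFk_local {k : ℕ} : ∀ {E' : Type} [NormedAddCommGroup E'] [NormedSpace ℝ E']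
    {F : T → E → E'}, (∀ x₀ : E, ∃ (U : Set E) (G : T → E → E'), IsOpen U ∧ x₀ ∈ U ∧
      CFk T E k E' G ∧ ∀ t, ∀ x ∈ U, F t x = G t x) → CFk T E k E' F := by
  induction k with
  | zero =>
    intro E' _ _ F h
    change Continuous (fun p : T × E => F p.1 p.2)
    rw [continuous_iff_continuousAt]
    rintro ⟨t, x⟩
    obtain ⟨U, G, hU, hx, hG, hFG⟩ := h x
    have h1 : (fun p : T × E => F p.1 p.2) =ᶠ[𝓝 (t, x)] fun p : T × E => G p.1 p.2 := by
      have h2 : ∀ᶠ p : T × E in 𝓝 (t, x), p.2 ∈ U :=
        continuous_snd.continuousAt.eventually_mem (hU.mem_nhds hx)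
      filter_upwards [h2] with p hp
      exact hFG p.1 p.2 hp
    exact ContinuousAt.congr (Continuous.continuousAt (CFk.continuous hG)) h1.symm
  | succ k ih =>
    intro E' _ _ F h
    have hev : ∀ (x₀ : E) (U : Set E) (G : T → E → E'), IsOpen U → x₀ ∈ U →
        (∀ t, ∀ x ∈ U, F t x = G t x) → ∀ t, F t =ᶠ[𝓝 x₀] G t := by
      intro x₀ U G hU hx hFG t
      filter_upwards [hU.mem_nhds hx] with x hx'
      exact hFG t x hx'
    refine ⟨?_, ?_, ?_⟩
    · rw [continuous_iff_continuousAt]
      rintro ⟨t, x⟩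
      obtain ⟨U, G, hU, hx, hG, hFG⟩ := h x
      have h1 : (fun p : T × E => F p.1 p.2) =ᶠ[𝓝 (t, x)] fun p : T × E => G p.1 p.2 := by
        have h2 : ∀ᶠ p : T × E in 𝓝 (t, x), p.2 ∈ U :=
          continuous_snd.continuousAt.eventually_mem (hU.mem_nhds hx)
        filter_upwards [h2] with p hp
        exact hFG p.1 p.2 hp
      exact ContinuousAt.congr (Continuous.continuousAt (CFk.continuous hG)) h1.symm
    · intro t x
      obtain ⟨U, G, hU, hx, hG, hFG⟩ := h x
      exact (hG.2.1 t x).congr_of_eventuallyEq (hev x U G hU hx hFG t)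
    · apply ih
      intro x₀
      obtain ⟨U, G, hU, hx, hG, hFG⟩ := h x₀
      refine ⟨U, fun t x => fderiv ℝ (G t) x, hU, hx, hG.2.2, fun t x hx' => ?_⟩
      exact (hev x U G hU hx' hFG t).fderiv_eq

lemma per_CF_local {E' : Type} [NormedAddCommGroup E'] [NormedSpace ℝ E'] {F : T → E → E'}
    (h : ∀ x₀ : E, ∃ (U : Set E) (G : T → E → E'), IsOpen U ∧ x₀ ∈ U ∧ CF G ∧
      ∀ t, ∀ x ∈ U, F t x = G t x) : CF F := by
  intro k
  apply per_CFk_local
  intro x₀
  obtain ⟨U, G, hU, hx, hG, hFG⟩ := h x₀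
  exact ⟨U, G, hU, hx, hG k, hFG⟩

end local_lemma

variable {n N : ℕ}

/-- Continuous families in `SympSupp n K` are smooth families. -/
lemma per_CF_supp {T : Type} [TopologicalSpace T] {K : Compacts (Phase n)} {f : T → SympSupp n K}
    (hf : Continuous f) : CF (fun t x => ((f t).1 : Equiv.Perm (Phase n)) x) := by
  have h1 : CF (fun t x => ((f t).1 : Equiv.Perm (Phase n)) x - x) := by
    intro k
    apply CFk.of_iteratedFDeriv
    · intro t
      exact (SympCt.contDiff (f t).1).sub contDiff_id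
    · intro i
      have h2 : Continuous (fun t => ContDiffMapSupportedIn.structureMapCLM ℝ ⊤ i
          (SympSupp.disp K (f t))) :=
        (ContDiffMapSupportedIn.structureMapCLM ℝ ⊤ i).continuous.comp
          ((SympSupp.isInducing_disp K).continuous.comp hf)
      have h3 : ∀ q : T × Phase n, iteratedFDeriv ℝ i
          (fun x => ((f q.1).1 : Equiv.Perm (Phase n)) x - x) q.2 =
          (ContDiffMapSupportedIn.structureMapCLM ℝ ⊤ i
          (SympSupp.disp K (f q.1))) q.2 := by
        intro q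
        rw [ContDiffMapSupportedIn.structureMapCLM_top_apply]
        rfl
      simp_rw [h3]
      exact continuous_eval.comp ((h2.comp continuous_fst).prodMk continuous_snd)
  have h4 := h1.add (CF.const (T := T) contDiff_id)
  simpa using h4

section

variable (b : Module.Basis (Fin N) ℝ (Phase n))

lemma per_continuous_coord (i : Fin N) : Continuous (fun x : Phase n => b.repr x i) :=
  (b.coord i).continuous_of_finiteDimensional

lemma per_repr_flr (j : ℕ) (x : Phase n) (i : Fin N) :
    b.repr (flr b j x) i = if (i : ℕ) < j then (⌊b.repr x i⌋ : ℝ) else 0 := by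
  unfold flr
  rw [map_sum, Finsupp.finsetSum_apply]
  rw [Finset.sum_eq_single i]
  · split_ifs with h
    · simp
    · simp
  · intro k _ hk
    split_ifs with h
    · rw [map_smul, Finsupp.smul_apply, Module.Basis.repr_self,
        Finsupp.single_eq_of_ne hk.symm, smul_zero]
    · simp
  · intro h
    exact absurd (Finset.mem_univ i) h

lemma per_flr_add (j : ℕ) (x : Phase n) (i : Fin N) (hi : (i : ℕ) < j) :
    flr b j (x + b i) = flr b j x + b i := by
  apply b.repr.injective
  ext k
  rw [map_add, Finsupp.add_apply, per_repr_flr, per_repr_flr, map_add, Finsupp.add_apply,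
    Module.Basis.repr_self]
  by_cases hk : k = i
  · subst hk
    rw [if_pos hi, if_pos hi, Finsupp.single_eq_same, Int.floor_add_one]
    push_cast
    ring
  · have h1 : (Finsupp.single i (1 : ℝ)) k = 0 := Finsupp.single_eq_of_ne hk
    rw [h1, add_zero, add_zero]

lemma per_flr_mem (j : ℕ) (x : Phase n) : flr b j x ∈ Submodule.span ℤ (Set.range b) := by
  unfold flr
  apply Submodule.sum_mem
  intro i _
  split_ifs with h
  · have h1 : ((⌊b.repr x i⌋ : ℝ)) • b i = (⌊b.repr x i⌋ : ℤ) • b i := by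
      rw [Int.cast_smul_eq_zsmul]
    rw [h1]
    exact Submodule.smul_mem _ _ (Submodule.subset_span (mem_range_self i))
  · exact Submodule.zero_mem _

lemma per_exists_delta (K : Compacts (Phase n)) (hK : (K : Set (Phase n)) ⊆ openBox b) :
    ∃ δ : ℝ, 0 < δ ∧ δ ≤ 1 / 2 ∧ ∀ x ∈ K, ∀ i, δ ≤ b.repr x i ∧ b.repr x i ≤ 1 - δ := by
  have h1 : ∀ i : Fin N, ∃ δ : ℝ, 0 < δ ∧ ∀ x ∈ K, δ ≤ b.repr x i ∧ b.repr x i ≤ 1 - δ := by
    intro i
    rcases (K : Set (Phase n)).eq_empty_or_nonempty with he | hne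
    · refine ⟨1, one_pos, fun x hx => ?_⟩
      have : x ∈ (K : Set (Phase n)) := hx
      rw [he] at this
      exact absurd this (notMem_empty x)
    · obtain ⟨x₁, hx₁, hm₁⟩ := K.isCompact.exists_isMinOn hne
        (per_continuous_coord b i).continuousOn
      obtain ⟨x₂, hx₂, hm₂⟩ := K.isCompact.exists_isMaxOn hne
        (per_continuous_coord b i).continuousOn
      refine ⟨min (b.repr x₁ i) (1 - b.repr x₂ i), ?_, fun x hx => ⟨?_, ?_⟩⟩
      · rw [lt_min_iff]
        exact ⟨(hK hx₁ i).1, by linarith [(hK hx₂ i).2]⟩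
      · exact (min_le_left _ _).trans (hm₁ hx)
      · have h3 : b.repr x i ≤ b.repr x₂ i := hm₂ hx
        have h4 := min_le_right (b.repr x₁ i) (1 - b.repr x₂ i)
        linarith
  choose δ hδ0 hδ using h1
  rcases Nat.eq_zero_or_pos N with hN | hN
  · subst hN
    exact ⟨1 / 2, by norm_num, le_rfl, fun x _ i => i.elim0⟩
  · have : Nonempty (Fin N) := ⟨⟨0, hN⟩⟩
    refine ⟨min (1 / 2) (Finset.univ.inf' Finset.univ_nonempty δ), ?_, min_le_left _ _, ?_⟩
    · rw [lt_min_iff]
      refine ⟨by norm_num, ?_⟩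
      rw [Finset.lt_inf'_iff]
      exact fun i _ => hδ0 i
    · intro x hx i
      have h1 : min (1 / 2) (Finset.univ.inf' Finset.univ_nonempty δ) ≤ δ i :=
        (min_le_right _ _).trans (Finset.inf'_le _ (Finset.mem_univ i))
      have h2 := hδ i x hx
      exact ⟨h1.trans h2.1, by linarith [h2.2]⟩

end

section perm

variable (b : Module.Basis (Fin N) ℝ (Phase n)) {K : Compacts (Phase n)}

lemma per_mem_of_ne (φ : SympSupp n K) {y : Phase n}
    (h : (φ.1 : Equiv.Perm (Phase n)) y ≠ y) :
    y ∈ K ∧ (φ.1 : Equiv.Perm (Phase n)) y ∈ K := by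
  have h1 : y ∈ K := by
    by_contra hy
    exact h (φ.2 y hy)
  refine ⟨h1, ?_⟩
  by_contra hy
  have h2 := φ.2 _ hy
  exact h ((φ.1 : Equiv.Perm (Phase n)).injective h2)

lemma per_mem_of_ne_symm (φ : SympSupp n K) {y : Phase n}
    (h : (φ.1 : Equiv.Perm (Phase n)).symm y ≠ y) :
    y ∈ K ∧ (φ.1 : Equiv.Perm (Phase n)).symm y ∈ K := by
  have h1 : (φ.1 : Equiv.Perm (Phase n)) ((φ.1 : Equiv.Perm (Phase n)).symm y) ≠
      (φ.1 : Equiv.Perm (Phase n)).symm y := by
    rw [Equiv.apply_symm_apply]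
    exact h.symm
  have h2 := per_mem_of_ne φ h1
  rw [Equiv.apply_symm_apply] at h2
  exact ⟨h2.2, h2.1⟩

lemma per_flr_eq (hK : (K : Set (Phase n)) ⊆ openBox b) (j : ℕ) (x y : Phase n)
    (hy : y ∈ K) : flr b j (y + flr b j x) = flr b j x := by
  apply b.repr.injective
  ext i
  rw [per_repr_flr, per_repr_flr, map_add, Finsupp.add_apply, per_repr_flr]
  split_ifs with h
  · have h1 := hK hy i
    rw [Int.floor_add_intCast]
    have h2 : ⌊b.repr y i⌋ = 0 := by
      rw [Int.floor_eq_iff]
      constructor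
      · push_cast; linarith [h1.1]
      · push_cast; linarith [h1.2]
    rw [h2, zero_add]
  · rfl

/-- The partial periodization. -/
noncomputable def perPerm (hK : (K : Set (Phase n)) ⊆ openBox b) (j : ℕ) (φ : SympSupp n K) :
    Equiv.Perm (Phase n) where
  toFun x := (φ.1 : Equiv.Perm (Phase n)) (x - flr b j x) + flr b j x
  invFun x := (φ.1 : Equiv.Perm (Phase n)).symm (x - flr b j x) + flr b j x
  left_inv x := by
    by_cases h : (φ.1 : Equiv.Perm (Phase n)) (x - flr b j x) = x - flr b j x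
    · have h1 : (φ.1 : Equiv.Perm (Phase n)).symm (x - flr b j x) = x - flr b j x := by
        rw [Equiv.symm_apply_eq]; exact h.symm
      simp only
      rw [h, sub_add_cancel, h1, sub_add_cancel]
    · have h1 := per_mem_of_ne φ h
      have h2 := per_flr_eq b hK j x _ h1.2
      simp only
      rw [h2, add_sub_cancel_right, Equiv.symm_apply_apply, sub_add_cancel]
  right_inv x := by
    by_cases h : (φ.1 : Equiv.Perm (Phase n)).symm (x - flr b j x) = x - flr b j x
    · have h1 : (φ.1 : Equiv.Perm (Phase n)) (x - flr b j x) = x - flr b j x := by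
        rw [Equiv.symm_apply_eq] at h; exact h.symm
      simp only
      rw [h, sub_add_cancel, h1, sub_add_cancel]
    · have h1 := per_mem_of_ne_symm φ h
      have h2 := per_flr_eq b hK j x _ h1.2
      simp only
      rw [h2, add_sub_cancel_right, Equiv.apply_symm_apply, sub_add_cancel]

lemma perPerm_apply (hK : (K : Set (Phase n)) ⊆ openBox b) (j : ℕ) (φ : SympSupp n K)
    (x : Phase n) : perPerm b hK j φ x =
      (φ.1 : Equiv.Perm (Phase n)) (x - flr b j x) + flr b j x := rfl

lemma perPerm_symm_apply (hK : (K : Set (Phase n)) ⊆ openBox b) (j : ℕ) (φ : SympSupp n K)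
    (x : Phase n) : (perPerm b hK j φ).symm x =
      (φ.1 : Equiv.Perm (Phase n)).symm (x - flr b j x) + flr b j x := rfl

/-- Local structure of the map `x ↦ g (x - flr x) + flr x`, `g` the identity off `K`. -/
lemma per_local {δ : ℝ} (hδ : 0 < δ) (hKδ : ∀ x ∈ K, ∀ i, δ ≤ b.repr x i ∧ b.repr x i ≤ 1 - δ)
    (j : ℕ) (x₀ : Phase n) : ∃ U : Set (Phase n), IsOpen U ∧ x₀ ∈ U ∧
      ((∀ x ∈ U, flr b j x = flr b j x₀) ∨ ∀ x ∈ U, x - flr b j x ∉ K) := by
  by_cases hint : ∃ i : Fin N, (i : ℕ) < j ∧ ((⌊b.repr x₀ i⌋ : ℤ) : ℝ) = b.repr x₀ i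
  · obtain ⟨i, hi, hm⟩ := hint
    set m : ℤ := ⌊b.repr x₀ i⌋ with hmdef
    refine ⟨{x | |b.repr x i - m| < δ}, ?_, ?_, Or.inr ?_⟩
    · exact isOpen_lt ((per_continuous_coord b i).sub continuous_const).abs continuous_const
    · change |b.repr x₀ i - m| < δ
      rw [← hm, sub_self, abs_zero]; exact hδ
    · intro x hx hxK
      have hx' : |b.repr x i - m| < δ := hx
      have h1 := hKδ _ hxK i
      rw [map_sub, Finsupp.sub_apply, per_repr_flr, if_pos hi] at h1
      rw [abs_lt] at hx'
      have h2 : (⌊b.repr x i⌋ : ℝ) ≤ b.repr x i := Int.floor_le _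
      have h3 : b.repr x i < ⌊b.repr x i⌋ + 1 := Int.lt_floor_add_one _
      rcases lt_or_ge (b.repr x i) m with hlt | hge
      · have h4 : ⌊b.repr x i⌋ < m := Int.floor_lt.2 hlt
        have h5 : ((⌊b.repr x i⌋ : ℤ) : ℝ) + 1 ≤ m := by exact_mod_cast h4
        linarith [h1.2, hx'.1]
      · have h4 : m ≤ ⌊b.repr x i⌋ := Int.le_floor.2 hge
        have h5 : (m : ℝ) ≤ ((⌊b.repr x i⌋ : ℤ) : ℝ) := by exact_mod_cast h4
        linarith [h1.1, hx'.2]
  · push Not at hint
    refine ⟨⋂ i : Fin N, {x | (i : ℕ) < j → (⌊b.repr x₀ i⌋ : ℝ) < b.repr x i ∧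
        b.repr x i < ⌊b.repr x₀ i⌋ + 1}, ?_, ?_, Or.inl ?_⟩
    · apply isOpen_iInter_of_finite
      intro i
      by_cases hi : (i : ℕ) < j
      · have h1 : {x : Phase n | (i : ℕ) < j → (⌊b.repr x₀ i⌋ : ℝ) < b.repr x i ∧
            b.repr x i < ⌊b.repr x₀ i⌋ + 1} =
            {x | (⌊b.repr x₀ i⌋ : ℝ) < b.repr x i} ∩ {x | b.repr x i < ⌊b.repr x₀ i⌋ + 1} := by
          ext x
          simp [hi]
        rw [h1]
        exact (isOpen_lt continuous_const (per_continuous_coord b i)).inter
          (isOpen_lt (per_continuous_coord b i) continuous_const)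
      · have h1 : {x : Phase n | (i : ℕ) < j → (⌊b.repr x₀ i⌋ : ℝ) < b.repr x i ∧
            b.repr x i < ⌊b.repr x₀ i⌋ + 1} = univ := by
          ext x
          simp [hi]
        rw [h1]
        exact isOpen_univ
    · rw [mem_iInter]
      intro i hi
      refine ⟨lt_of_le_of_ne (Int.floor_le _) (hint i hi), Int.lt_floor_add_one _⟩
    · intro x hx
      rw [mem_iInter] at hx
      apply b.repr.injective
      ext i
      rw [per_repr_flr, per_repr_flr]
      split_ifs with h
      · have h1 := hx i h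
        have h2 : ⌊b.repr x i⌋ = ⌊b.repr x₀ i⌋ := by
          rw [Int.floor_eq_iff]
          exact ⟨h1.1.le, h1.2⟩
        rw [h2]
      · rfl

/-- Smoothness of families `x ↦ g_t (x - flr x) + flr x`. -/
lemma per_CF {δ : ℝ} (hδ : 0 < δ) (hKδ : ∀ x ∈ K, ∀ i, δ ≤ b.repr x i ∧ b.repr x i ≤ 1 - δ)
    (j : ℕ) {T : Type} [TopologicalSpace T] {g : T → Phase n → Phase n} (hg : CF g)
    (hgK : ∀ t, ∀ x ∉ K, g t x = x) : CF (fun t x => g t (x - flr b j x) + flr b j x) := by
  apply per_CF_local
  intro x₀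
  obtain ⟨U, hU, hx₀, h⟩ := per_local b hδ hKδ j x₀
  rcases h with h | h
  · refine ⟨U, fun t x => g t (x - flr b j x₀) + flr b j x₀, hU, hx₀, ?_, ?_⟩
    · apply CF.add
      · exact CF.comp hg ((CF.const contDiff_id).sub (CF.const contDiff_const))
      · exact CF.const contDiff_const
    · intro t x hx
      rw [h x hx]
  · refine ⟨U, fun _ x => x, hU, hx₀, CF.const contDiff_id, ?_⟩
    intro t x hx
    rw [hgK t _ (h x hx), sub_add_cancel]

lemma per_lev (hK : (K : Set (Phase n)) ⊆ openBox b) {δ : ℝ} (hδ : 0 < δ)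
    (hKδ : ∀ x ∈ K, ∀ i, δ ≤ b.repr x i ∧ b.repr x i ≤ 1 - δ) (j : ℕ)
    {T : Type} [TopologicalSpace T] (f : T → SympSupp n K) (hf : Continuous f) :
    Lev b j 1 (fun t => perPerm b hK j (f t)) := by
  have hcf := per_CF_supp hf
  have hfK : ∀ t, ∀ x ∉ K, ((f t).1 : Equiv.Perm (Phase n)) x = x := fun t x hx => (f t).2 x hx
  have hinj : ∀ t x, Injective (fderiv ℝ ((f t).1 : Equiv.Perm (Phase n)) x) := by
    intro t x
    rw [injective_iff_map_eq_zero]
    intro u hu
    apply eq_zero_of_omegaStd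
    intro v
    rw [← (f t).1.2.2.2.1 x u v, hu, omegaStd_zero_left]
  have hcf' : CF (fun t x => ((f t).1 : Equiv.Perm (Phase n)).symm x) :=
    Pool.Agent.Helper42.CF_inverse hcf K.isCompact hfK hinj
      (fun t x => Equiv.apply_symm_apply _ x) (fun t x => Equiv.symm_apply_apply _ x)
  have hfK' : ∀ t, ∀ x ∉ K, ((f t).1 : Equiv.Perm (Phase n)).symm x = x := by
    intro t x hx
    rw [Equiv.symm_apply_eq]
    exact (hfK t x hx).symm
  refine ⟨per_CF b hδ hKδ j hcf hfK, per_CF b hδ hKδ j hcf' hfK', ?_, ?_, ?_⟩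
  · intro t p u v
    obtain ⟨U, hU, hp, h⟩ := per_local b hδ hKδ j p
    rcases h with h | h
    · have h1 : (perPerm b hK j (f t) : Phase n → Phase n) =ᶠ[𝓝 p]
          fun x => ((f t).1 : Equiv.Perm (Phase n)) (x - flr b j p) + flr b j p := by
        filter_upwards [hU.mem_nhds hp] with x hx
        rw [perPerm_apply, h x hx]
      have h2 : HasFDerivAt (fun x => ((f t).1 : Equiv.Perm (Phase n)) (x - flr b j p) + flr b j p)
          (fderiv ℝ ((f t).1 : Equiv.Perm (Phase n)) (p - flr b j p)) p := by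
        have h3 : HasFDerivAt (fun x : Phase n => x - flr b j p)
            (ContinuousLinearMap.id ℝ (Phase n)) p := (hasFDerivAt_id p).sub_const _
        have h4 := ((SympCt.differentiable (f t).1 (p - flr b j p)).hasFDerivAt.comp p h3).add_const
          (flr b j p)
        simpa using h4
      rw [h1.fderiv_eq, h2.fderiv]
      exact (f t).1.2.2.2.1 _ u v
    · have h1 : (perPerm b hK j (f t) : Phase n → Phase n) =ᶠ[𝓝 p] id := by
        filter_upwards [hU.mem_nhds hp] with x hx
        rw [perPerm_apply, hfK t _ (h x hx), sub_add_cancel, id]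
      rw [h1.fderiv_eq, fderiv_id]
      simp
  · intro t i hi x
    rw [perPerm_apply, perPerm_apply, per_flr_add b j x i hi]
    have h1 : x + b i - (flr b j x + b i) = x - flr b j x := by abel
    rw [h1]
    abel
  · intro t x hx
    by_contra hne
    apply hx
    have h1 : ((f t).1 : Equiv.Perm (Phase n)) (x - flr b j x) ≠ x - flr b j x := by
      intro h
      apply hne
      rw [perPerm_apply, h, sub_add_cancel]
    intro i hi
    have h2 := hKδ _ (per_mem_of_ne (f t) h1).1 i
    rw [map_sub, Finsupp.sub_apply, per_repr_flr, if_neg (not_lt.2 hi), sub_zero] at h2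
    rw [abs_le]
    constructor
    · linarith [h2.1]
    · linarith [h2.2]

end perm

theorem thm_Pers : St_Pers := by
  intro n N b K hK
  obtain ⟨δ, hδ, hδ', hKδ⟩ := per_exists_delta b K hK
  refine ⟨δ, perPerm b hK, hδ, hδ', fun j φ x => rfl, ?_, ?_, ?_, ?_, ?_⟩
  · intro T _ f hf j _
    exact per_lev b hK hδ hKδ j f hf
  · intro j φ x hne i hi
    have h1 : (φ.1 : Equiv.Perm (Phase n)) (x - flr b j x) ≠ x - flr b j x := by
      intro h
      apply hne
      rw [perPerm_apply, h, sub_add_cancel]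
    have h2 := hKδ _ (per_mem_of_ne φ h1).1 i
    rwa [map_sub, Finsupp.sub_apply, per_repr_flr, if_neg (not_lt.2 hi), sub_zero] at h2
  · intro j φ x h0 h1
    rcases lt_or_eq_of_le h1 with hlt | heq
    · have h2 : flr b ((j : ℕ) + 1) x = flr b (j : ℕ) x := by
        apply b.repr.injective
        ext i
        rw [per_repr_flr, per_repr_flr]
        by_cases hi : (i : ℕ) < j
        · rw [if_pos hi, if_pos (Nat.lt_succ_of_lt hi)]
        · by_cases hi' : (i : ℕ) < (j : ℕ) + 1
          · have h3 : i = j := Fin.ext (by omega)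
            subst h3
            rw [if_pos hi', if_neg hi]
            have h4 : ⌊b.repr x i⌋ = 0 := by
              rw [Int.floor_eq_iff]
              constructor
              · push_cast; linarith
              · push_cast; linarith
            rw [h4, Int.cast_zero]
          · rw [if_neg hi', if_neg hi]
      rw [perPerm_apply, perPerm_apply, h2]
    · have h2 : perPerm b hK ((j : ℕ) + 1) φ x = x := by
        by_contra hne
        have h3 : (φ.1 : Equiv.Perm (Phase n)) (x - flr b ((j : ℕ) + 1) x) ≠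
            x - flr b ((j : ℕ) + 1) x := by
          intro h
          apply hne
          rw [perPerm_apply, h, sub_add_cancel]
        have h4 := hKδ _ (per_mem_of_ne φ h3).1 j
        rw [map_sub, Finsupp.sub_apply, per_repr_flr, if_pos (Nat.lt_succ_self _), heq] at h4
        have h5 : ⌊(1 : ℝ)⌋ = 1 := Int.floor_one
        rw [h5] at h4
        push_cast at h4
        linarith [h4.1]
      have h3 : perPerm b hK (j : ℕ) φ x = x := by
        by_contra hne
        have h3 : (φ.1 : Equiv.Perm (Phase n)) (x - flr b (j : ℕ) x) ≠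
            x - flr b (j : ℕ) x := by
          intro h
          apply hne
          rw [perPerm_apply, h, sub_add_cancel]
        have h4 := hKδ _ (per_mem_of_ne φ h3).1 j
        rw [map_sub, Finsupp.sub_apply, per_repr_flr, if_neg (lt_irrefl _), heq] at h4
        linarith [h4.2]
      rw [h2, h3]
  · intro φ
    ext1 x
    have h1 : flr b 0 x = 0 := by simp [flr]
    rw [perPerm_apply, h1, sub_zero, add_zero]
  · intro φ
    refine ⟨fun x hx => ?_, fun x hx => ?_⟩
    · have h1 : flr b N x = 0 := by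
        apply b.repr.injective
        ext i
        rw [per_repr_flr, if_pos i.2, map_zero, Finsupp.zero_apply]
        have h2 := hK hx i
        have h4 : ⌊b.repr x i⌋ = 0 := by
          rw [Int.floor_eq_iff]
          constructor
          · push_cast; linarith [h2.1]
          · push_cast; linarith [h2.2]
        rw [h4, Int.cast_zero]
      rw [perPerm_apply, h1, sub_zero, add_zero]
    · rw [perPerm_apply, φ.2 _ (hx _ (per_flr_mem b N x)), sub_add_cancel]

end Pool.Agent.TOR
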