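import Mathlib
import Pool.Agent.TOR.Stmts
import Pool.Agent.Helper17.Scale
import Pool.Agent.Helper17.Translate

set_option maxSynthPendingDepth 3

open scoped ContDiff Distributions Topology unitInterval
open Set Function TopologicalSpace

namespace Pool.Agent.TOR

open Pool.Agent.Helper17

/-- Conjugation with the dilation `x ↦ c + s (x - c)`. -/
noncomputable def dil_map {n : ℕ} (c : Phase n) (s : ℝ) (hs : s ≠ 0) (φ : SympCt n) : SympCt n :=
  translate c (dilate s hs (translate (-c) φ))

lemma dil_map_apply {n : ℕ} (c : Phase n) (s : ℝ) (hs : s ≠ 0) (φ : SympCt n) (x : Phase n) :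
    (dil_map c s hs φ : Equiv.Perm (Phase n)) x =
      s • ((φ : Equiv.Perm (Phase n)) (s⁻¹ • (x - c) + c) - c) + c := by
  unfold dil_map
  rw [translate_apply, dilate_apply, translate_apply]
  simp [sub_eq_add_neg]

lemma dil_map_one {n : ℕ} (c : Phase n) (hs : (1 : ℝ) ≠ 0) (φ : SympCt n) :
    dil_map c 1 hs φ = φ := by
  apply SympCt.ext'
  intro x
  rw [dil_map_apply]
  simp

lemma dil_supp {n : ℕ} (c : Phase n) (s : ℝ) (hs : s ≠ 0) (φ : SympCt n) (L : Set (Phase n))
    (hφ : ∀ x ∉ L, (φ : Equiv.Perm (Phase n)) x = x) (x : Phase n)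
    (hx : s⁻¹ • (x - c) + c ∉ L) : (dil_map c s hs φ : Equiv.Perm (Phase n)) x = x := by
  rw [dil_map_apply, hφ _ hx]
  rw [add_sub_cancel_right, smul_smul, mul_inv_cancel₀ hs, one_smul, sub_add_cancel]

lemma dil_cont {n : ℕ} (c : Phase n) {T : Type} [TopologicalSpace T] [CompactSpace T]
    (s : T → ℝ) (hs : Continuous s) (hs0 : ∀ t, s t ≠ 0) (f : T → SympCt n) (hf : Continuous f) :
    Continuous (fun t => dil_map c (s t) (hs0 t) (f t)) := by
  obtain ⟨hcf, K, hK⟩ := CF_of_continuous hf
  have hm : Continuous (fun p : T × Phase n => s p.1 • (p.2 - c) + c) :=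
    ((hs.comp continuous_fst).smul (continuous_snd.sub continuous_const)).add continuous_const
  have hK1 : IsCompact ((fun p : T × Phase n => s p.1 • (p.2 - c) + c) ''
      ((univ : Set T) ×ˢ (K : Set (Phase n)))) :=
    (isCompact_univ.prod K.isCompact).image hm
  refine continuous_of_CF
    (F := fun t x => s t • ((f t : Equiv.Perm (Phase n)) ((s t)⁻¹ • (x - c) + c) - c) + c)
    ?_ ⟨_, hK1⟩ ?_ ?_
  · have h1 : CF (fun (t : T) (x : Phase n) => (s t)⁻¹ • (x - c) + c) :=
      ((CF.param (hs.inv₀ hs0)).smul ((CF.const contDiff_id).sub (CF.const contDiff_const))).add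
        (CF.const contDiff_const)
    have h2 : CF (fun (t : T) (x : Phase n) =>
        (f t : Equiv.Perm (Phase n)) ((s t)⁻¹ • (x - c) + c)) := CF.comp hcf h1
    exact ((CF.param hs).smul (h2.sub (CF.const contDiff_const))).add (CF.const contDiff_const)
  · intro t x hx
    have h1 : (s t)⁻¹ • (x - c) + c ∉ K := by
      intro h
      apply hx
      refine ⟨(t, (s t)⁻¹ • (x - c) + c), ⟨mem_univ _, h⟩, ?_⟩
      change s t • ((s t)⁻¹ • (x - c) + c - c) + c = x
      rw [add_sub_cancel_right, smul_smul, mul_inv_cancel₀ (hs0 t), one_smul, sub_add_cancel]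
    have h2 := dil_supp c (s t) (hs0 t) (f t) K (hK t) x h1
    rw [dil_map_apply] at h2
    exact h2
  · intro t x
    exact dil_map_apply _ _ _ _ _

/-- The dilation maps the symplectomorphisms supported in `K` into themselves. -/
lemma dil_supp_convex {n : ℕ} {K : Compacts (Phase n)} (hK : Convex ℝ (K : Set (Phase n)))
    {c : Phase n} (hc : c ∈ K) {s : ℝ} (hs : 0 < s) (hs1 : s ≤ 1) (φ : SympCt n)
    (hφ : ∀ x ∉ K, (φ : Equiv.Perm (Phase n)) x = x) :
    ∀ x ∉ K, (dil_map c s hs.ne' φ : Equiv.Perm (Phase n)) x = x := by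
  intro x hx
  refine dil_supp c s hs.ne' φ K hφ x ?_
  intro h
  apply hx
  have h1 := hK hc h (sub_nonneg.2 hs1) hs.le (by ring)
  have h2 : (1 - s) • c + s • (s⁻¹ • (x - c) + c) = x := by
    rw [smul_add, smul_smul, mul_inv_cancel₀ hs.ne', one_smul, sub_smul, one_smul]
    abel
  rw [h2] at h1
  exact h1

/-- The dilation by a small factor maps the symplectomorphisms supported in a ball into those
supported in `K`. -/
lemma dil_supp_ball {n : ℕ} {K : Compacts (Phase n)} {c : Phase n} {ρ : ℝ}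
    (hρ : Metric.ball c ρ ⊆ K) (N : ℕ) {s : ℝ} (hs : 0 < s)
    (hs1 : s * (N + ‖c‖ + 1) ≤ ρ) (φ : SympCt n)
    (hφ : ∀ x ∉ ballC n N, (φ : Equiv.Perm (Phase n)) x = x) :
    ∀ x ∉ K, (dil_map c s hs.ne' φ : Equiv.Perm (Phase n)) x = x := by
  intro x hx
  refine dil_supp c s hs.ne' φ (ballC n N) hφ x ?_
  intro h
  apply hx
  apply hρ
  rw [Metric.mem_ball, dist_eq_norm]
  have h1 : ‖s⁻¹ • (x - c) + c‖ ≤ N := mem_closedBall_zero_iff.1 h
  have h2 : ‖x - c‖ ≤ s * (N + ‖c‖) := by
    have e : x - c = s • ((s⁻¹ • (x - c) + c) - c) := by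
      rw [add_sub_cancel_right, smul_smul, mul_inv_cancel₀ hs.ne', one_smul]
    rw [e, norm_smul, Real.norm_of_nonneg hs.le]
    refine mul_le_mul_of_nonneg_left ?_ hs.le
    exact (norm_sub_le _ _).trans (by linarith)
  have h3 : s * (N + ‖c‖) < s * (N + ‖c‖ + 1) := by nlinarith
  linarith

/-- A symplectomorphism supported in `K`. -/
def dil_mk {n : ℕ} (K : Compacts (Phase n)) (φ : SympCt n)
    (hφ : ∀ x ∉ K, (φ : Equiv.Perm (Phase n)) x = x) : SympSupp n K := ⟨φ, hφ⟩

lemma dil_cont_mk {n : ℕ} {K : Compacts (Phase n)} {T : Type} [TopologicalSpace T]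
    {F : T → SympCt n} (hF : Continuous F)
    (h : ∀ t, ∀ x ∉ K, (F t : Equiv.Perm (Phase n)) x = x) :
    Continuous (fun t => dil_mk K (F t) (h t)) :=
  (SympSupp.isClosedEmbedding_incl K).isInducing.continuous_iff.2 hF

lemma dil_cont_incl {n : ℕ} {K : Compacts (Phase n)} {T : Type} [TopologicalSpace T]
    {F : T → SympSupp n K} (hF : Continuous F) : Continuous (fun t => SympSupp.incl K (F t)) :=
  (SympSupp.continuous_incl K).comp hF

lemma dil_supp_incl {n : ℕ} {K : Compacts (Phase n)} (φ : SympSupp n K) :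
    ∀ x ∉ K, (SympSupp.incl K φ : Equiv.Perm (Phase n)) x = x := φ.2

/-- The interpolation `u ↦ 1 - u (1 - s)` between `1` and `s`. -/
lemma dil_int_pos {s : ℝ} (hs : 0 < s) (hs1 : s ≤ 1) (u : I) : 0 < 1 - (u : ℝ) * (1 - s) := by
  have h0 := u.2.1
  have h1 := u.2.2
  nlinarith

lemma dil_int_le {s : ℝ} (hs1 : s ≤ 1) (u : I) : 1 - (u : ℝ) * (1 - s) ≤ 1 := by
  have h0 := u.2.1
  nlinarith [sub_nonneg.2 hs1]

theorem thm_Dil : St_Dil := by
  intro n K hK hint T _ _
  obtain ⟨c, hc⟩ := hint
  obtain ⟨ρ, hρ, hball⟩ := Metric.mem_nhds_iff.1 (mem_interior_iff_mem_nhds.1 hc)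
  have hcK : c ∈ K := interior_subset hc
  -- the small factor
  have hfac : ∀ N : ℕ, ∃ s : ℝ, 0 < s ∧ s ≤ 1 ∧ s * (N + ‖c‖ + 1) ≤ ρ := by
    intro N
    have h1 : 0 < (N : ℝ) + ‖c‖ + 1 := by positivity
    refine ⟨min 1 (ρ / (N + ‖c‖ + 1)), lt_min one_pos (div_pos hρ h1), min_le_left _ _, ?_⟩
    calc min 1 (ρ / (N + ‖c‖ + 1)) * (N + ‖c‖ + 1)
        ≤ (ρ / (N + ‖c‖ + 1)) * (N + ‖c‖ + 1) :=
          mul_le_mul_of_nonneg_right (min_le_right _ _) h1.le
      _ = ρ := div_mul_cancel₀ _ h1.ne'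
  constructor
  · intro f
    obtain ⟨N, hN⟩ := exists_ballC_of_isCompact (isCompact_range f.continuous)
    have hN' : ∀ t, ∀ p ∉ ballC n N, (f t : Equiv.Perm (Phase n)) p = p :=
      fun t => hN (f t) (mem_range_self t)
    obtain ⟨s, hs, hs1, hsN⟩ := hfac N
    refine ⟨⟨fun t => dil_mk K (dil_map c s hs.ne' (f t))
      (dil_supp_ball hball N hs hsN (f t) (hN' t)),
      dil_cont_mk (dil_cont c (fun _ : T => s) continuous_const (fun _ => hs.ne') f
        f.continuous) _⟩, ?_⟩
    refine ⟨⟨⟨fun p : I × T => dil_map c (1 - (p.1 : ℝ) * (1 - s))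
      (dil_int_pos hs hs1 p.1).ne' (f p.2), ?_⟩, ?_, ?_⟩⟩
    · exact dil_cont c (fun p : I × T => 1 - (p.1 : ℝ) * (1 - s))
        (continuous_const.sub ((continuous_subtype_val.comp continuous_fst).mul
          continuous_const)) (fun p => (dil_int_pos hs hs1 p.1).ne') (fun p => f p.2)
        (f.continuous.comp continuous_snd)
    · intro t
      apply SympCt.ext'
      intro x
      change (dil_map c (1 - ((0 : I) : ℝ) * (1 - s)) _ (f t) : Equiv.Perm (Phase n)) x = _
      rw [dil_map_apply]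
      simp
    · intro t
      apply SympCt.ext'
      intro x
      change (dil_map c (1 - ((1 : I) : ℝ) * (1 - s)) _ (f t) : Equiv.Perm (Phase n)) x =
        (dil_map c s hs.ne' (f t) : Equiv.Perm (Phase n)) x
      rw [dil_map_apply, dil_map_apply]
      simp
  · intro f g ⟨H⟩
    obtain ⟨N, hN⟩ := exists_ballC_of_isCompact (isCompact_range H.continuous)
    have hN' : ∀ p, ∀ x ∉ ballC n N, (H p : Equiv.Perm (Phase n)) x = x :=
      fun p => hN (H p) (mem_range_self p)
    obtain ⟨s, hs, hs1, hsN⟩ := hfac N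
    -- the dilated map
    set D : C(T, SympSupp n K) → C(T, SympSupp n K) := fun f =>
      ⟨fun t => dil_mk K (dil_map c s hs.ne' (SympSupp.incl K (f t)))
        (dil_supp_convex hK hcK hs hs1 _ (dil_supp_incl (f t))),
        dil_cont_mk (dil_cont c (fun _ : T => s) continuous_const (fun _ => hs.ne')
          (fun t => SympSupp.incl K (f t)) (dil_cont_incl f.continuous)) _⟩ with hD
    have h1 : ∀ f : C(T, SympSupp n K), f.Homotopic (D f) := by
      intro f
      refine ⟨⟨⟨fun p : I × T => dil_mk K (dil_map c (1 - (p.1 : ℝ) * (1 - s))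
        (dil_int_pos hs hs1 p.1).ne' (SympSupp.incl K (f p.2)))
        (dil_supp_convex hK hcK (dil_int_pos hs hs1 p.1) (dil_int_le hs1 p.1) _
          (dil_supp_incl (f p.2))), ?_⟩, ?_, ?_⟩⟩
      · exact dil_cont_mk (dil_cont c (fun p : I × T => 1 - (p.1 : ℝ) * (1 - s))
          (continuous_const.sub ((continuous_subtype_val.comp continuous_fst).mul
            continuous_const)) (fun p => (dil_int_pos hs hs1 p.1).ne')
          (fun p => SympSupp.incl K (f p.2))
          (dil_cont_incl (f.continuous.comp continuous_snd))) _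
      · intro t
        apply SympSupp.incl_injective K
        apply SympCt.ext'
        intro x
        change (dil_map c (1 - ((0 : I) : ℝ) * (1 - s)) _ (SympSupp.incl K (f t)) :
          Equiv.Perm (Phase n)) x = _
        rw [dil_map_apply]
        simp
      · intro t
        apply SympSupp.incl_injective K
        apply SympCt.ext'
        intro x
        change (dil_map c (1 - ((1 : I) : ℝ) * (1 - s)) _ (SympSupp.incl K (f t)) :
          Equiv.Perm (Phase n)) x =
          (dil_map c s hs.ne' (SympSupp.incl K (f t)) : Equiv.Perm (Phase n)) x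
        rw [dil_map_apply, dil_map_apply]
        simp
    have h2 : (D f).Homotopic (D g) := by
      refine ⟨⟨⟨fun p : I × T => dil_mk K (dil_map c s hs.ne' (H p))
        (dil_supp_ball hball N hs hsN (H p) (hN' p)), ?_⟩, ?_, ?_⟩⟩
      · exact dil_cont_mk (dil_cont c (fun _ : I × T => s) continuous_const (fun _ => hs.ne') H
          H.continuous) _
      · intro t
        apply SympSupp.incl_injective K
        change dil_map c s hs.ne' (H (0, t)) = dil_map c s hs.ne' (SympSupp.incl K (f t))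
        rw [H.apply_zero]
        rfl
      · intro t
        apply SympSupp.incl_injective K
        change dil_map c s hs.ne' (H (1, t)) = dil_map c s hs.ne' (SympSupp.incl K (g t))
        rw [H.apply_one]
        rfl
    exact (h1 f).trans (h2.trans (h1 g).symm)

end Pool.Agent.TOR
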