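import Mathlib
import Pool.Agent.TOR.Stmts
import Pool.Agent.TOR.Assemble

set_option maxSynthPendingDepth 3

open scoped ContDiff Distributions Topology
open Set Function TopologicalSpace Filter

namespace Pool.Agent.TOR

open Pool.Agent.Helper17

section compare

variable {n N : ℕ}

lemma com_repr_cont (b : Module.Basis (Fin N) ℝ (Phase n)) (i : Fin N) :
    Continuous (fun z : Phase n => b.repr z i) := by
  have : Continuous (b.coord i) := LinearMap.continuous_of_finiteDimensional _
  exact this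

lemma com_repr_add (b : Module.Basis (Fin N) ℝ (Phase n)) (z : Phase n) (a : ℝ) (i : Fin N) :
    b.repr (z + a • b i) i = b.repr z i + a := by
  rw [map_add, map_smul, Module.Basis.repr_self, Finsupp.add_apply, Finsupp.smul_apply,
    Finsupp.single_eq_same, smul_eq_mul, mul_one]

lemma com_repr_sub (b : Module.Basis (Fin N) ℝ (Phase n)) (z : Phase n) (a : ℝ) (i : Fin N) :
    b.repr (z - a • b i) i = b.repr z i - a := by
  rw [map_sub, map_smul, Module.Basis.repr_self, Finsupp.sub_apply, Finsupp.smul_apply,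
    Finsupp.single_eq_same, smul_eq_mul, mul_one]

/-- Translation by integral multiples. -/
lemma com_int {ψ : Phase n → Phase n} {e : Phase n} (h : ∀ x, ψ (x + e) = ψ x + e) (m : ℤ) :
    ∀ x, ψ (x + (m : ℝ) • e) = ψ x + (m : ℝ) • e := by
  induction m with
  | zero => intro x; simp
  | succ k ih =>
    intro x
    push_cast
    rw [add_smul, one_smul, ← add_assoc, h]
    have := ih x
    push_cast at this
    rw [this, ← add_assoc]
  | pred k ih =>
    intro x
    push_cast
    rw [sub_smul, one_smul]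
    have h1 := h (x + (-(k : ℝ) • e - e))
    have h2 : x + (-(k : ℝ) • e - e) + e = x + -(k : ℝ) • e := by abel
    rw [h2] at h1
    have h3 := ih x
    push_cast at h3
    rw [h3] at h1
    rw [eq_comm, ← sub_eq_iff_eq_add] at h1
    rw [← h1]
    abel

variable {b : Module.Basis (Fin N) ℝ (Phase n)} {j : Fin N} {f P : Equiv.Perm (Phase n)} {δ : ℝ}

/-- `f` preserves the strip. -/
lemma com_strip (hf : ∀ x, f x ≠ x → δ ≤ b.repr x j ∧ b.repr x j ≤ 1 - δ) (hδ : 0 < δ)
    {x : Phase n} (h0 : 0 ≤ b.repr x j) (h1 : b.repr x j ≤ 1) :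
    0 ≤ b.repr (f x) j ∧ b.repr (f x) j ≤ 1 := by
  by_cases hx : f x = x
  · rw [hx]; exact ⟨h0, h1⟩
  · have h2 : f (f x) ≠ f x := fun h => hx (f.injective h)
    have h3 := hf _ h2
    constructor <;> linarith [h3.1, h3.2]

lemma com_zero (hδ' : δ ≤ 1 / 2) (hP : ∀ x, P (x + b j) = P x + b j)
    (hf : ∀ x, f x ≠ x → δ ≤ b.repr x j ∧ b.repr x j ≤ 1 - δ)
    (hPf : ∀ x, 0 ≤ b.repr x j → b.repr x j ≤ 1 → P x = f x) {x : Phase n}
    (h0 : -δ < b.repr x j) (h1 : b.repr x j < δ) : P x = x := by
  rcases le_or_gt 0 (b.repr x j) with h | h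
  · rw [hPf x h (by linarith)]
    by_contra hx
    linarith [(hf x hx).1]
  · have h2 : b.repr (x + b j) j = b.repr x j + 1 := by
      have := com_repr_add b x 1 j
      rwa [one_smul] at this
    have h3 : P (x + b j) = x + b j := by
      rw [hPf (x + b j) (by rw [h2]; linarith) (by rw [h2]; linarith)]
      by_contra hx
      have := (hf _ hx).2
      rw [h2] at this
      linarith
    rw [hP] at h3
    exact add_right_cancel h3

/-- `P` preserves the half space. -/
lemma com_half (hδ : 0 < δ) (hδ' : δ ≤ 1 / 2) (hP : ∀ x, P (x + b j) = P x + b j)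
    (hf : ∀ x, f x ≠ x → δ ≤ b.repr x j ∧ b.repr x j ≤ 1 - δ)
    (hPf : ∀ x, 0 ≤ b.repr x j → b.repr x j ≤ 1 → P x = f x) (x : Phase n) :
    b.repr (P x) j ≤ 0 ↔ b.repr x j ≤ 0 := by
  have hz := @com_zero n N b j f P δ hδ' hP hf hPf
  -- the strips
  have hstrip : ∀ y : Phase n, (⌊b.repr y j⌋ : ℝ) ≤ b.repr (P y) j ∧
      b.repr (P y) j ≤ (⌊b.repr y j⌋ : ℝ) + 1 := by
    intro y
    set m : ℤ := ⌊b.repr y j⌋ with hm
    have h1 : b.repr (y - (m : ℝ) • b j) j = b.repr y j - m := com_repr_sub b y m j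
    have h2 : 0 ≤ b.repr (y - (m : ℝ) • b j) j := by
      rw [h1]; linarith [Int.floor_le (b.repr y j)]
    have h3 : b.repr (y - (m : ℝ) • b j) j ≤ 1 := by
      rw [h1]; linarith [Int.lt_floor_add_one (b.repr y j)]
    have h4 := com_strip hf hδ h2 h3
    rw [← hPf _ h2 h3] at h4
    have h5 := com_int hP m (y - (m : ℝ) • b j)
    rw [sub_add_cancel] at h5
    rw [h5, com_repr_add]
    constructor <;> linarith [h4.1, h4.2]
  constructor
  · intro h
    by_contra hx
    push Not at hx
    have h1 := (hstrip x).1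
    have h2 : (0 : ℝ) ≤ (⌊b.repr x j⌋ : ℝ) := by
      exact_mod_cast Int.floor_nonneg.2 hx.le
    have h3 : b.repr (P x) j = 0 := by linarith
    have h4 : P (P x) = P x := hz (by rw [h3]; linarith) (by rw [h3]; exact hδ)
    have h5 : P x = x := P.injective h4
    rw [h5] at h3
    linarith
  · intro h
    rcases eq_or_lt_of_le h with h | h
    · rw [hz (by rw [h]; linarith) (by rw [h]; exact hδ), h]
    · have h1 := (hstrip x).2
      have h2 : ⌊b.repr x j⌋ < 0 := Int.floor_lt.2 (by exact_mod_cast h)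
      have h3 : (⌊b.repr x j⌋ : ℝ) + 1 ≤ 0 := by exact_mod_cast h2
      linarith

open Classical in
/-- The map `P` on the half space, the identity elsewhere. -/
noncomputable def com_neg (b : Module.Basis (Fin N) ℝ (Phase n)) (j : Fin N)
    (P : Equiv.Perm (Phase n)) (h : ∀ x, b.repr (P x) j ≤ 0 ↔ b.repr x j ≤ 0) :
    Equiv.Perm (Phase n) where
  toFun x := if b.repr x j ≤ 0 then P x else x
  invFun x := if b.repr x j ≤ 0 then P.symm x else x
  left_inv x := by
    beta_reduce
    by_cases hx : b.repr x j ≤ 0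
    · rw [if_pos hx, if_pos ((h x).2 hx), Equiv.symm_apply_apply]
    · rw [if_neg hx, if_neg hx]
  right_inv x := by
    beta_reduce
    by_cases hx : b.repr x j ≤ 0
    · have h1 : b.repr (P.symm x) j ≤ 0 := by
        rw [← h (P.symm x), Equiv.apply_symm_apply]; exact hx
      rw [if_pos hx, if_pos h1, Equiv.apply_symm_apply]
    · rw [if_neg hx, if_neg hx]

lemma com_neg_pos {h : ∀ x, b.repr (P x) j ≤ 0 ↔ b.repr x j ≤ 0} {x : Phase n}
    (hx : b.repr x j ≤ 0) : com_neg b j P h x = P x := if_pos hx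

lemma com_neg_neg {h : ∀ x, b.repr (P x) j ≤ 0 ↔ b.repr x j ≤ 0} {x : Phase n}
    (hx : 0 < b.repr x j) : com_neg b j P h x = x := if_neg (not_le.2 hx)

lemma com_neg_symm_pos {h : ∀ x, b.repr (P x) j ≤ 0 ↔ b.repr x j ≤ 0} {x : Phase n}
    (hx : b.repr x j ≤ 0) : (com_neg b j P h).symm x = P.symm x := if_pos hx

lemma com_neg_symm_neg {h : ∀ x, b.repr (P x) j ≤ 0 ↔ b.repr x j ≤ 0} {x : Phase n}
    (hx : 0 < b.repr x j) : (com_neg b j P h).symm x = x := if_neg (not_le.2 hx)

/-- Local description of a map which is `Q` on the half space and the identity elsewhere. -/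
lemma com_local {Q ψ : Phase n → Phase n} (hδ : 0 < δ)
    (hQ : ∀ x, -δ < b.repr x j → b.repr x j < δ → Q x = x)
    (h1 : ∀ x, b.repr x j ≤ 0 → ψ x = Q x) (h2 : ∀ x, 0 < b.repr x j → ψ x = x)
    (x : Phase n) : ψ =ᶠ[𝓝 x] Q ∨ ψ =ᶠ[𝓝 x] id := by
  rcases lt_or_ge (b.repr x j) δ with h | h
  · left
    have ho : IsOpen {z : Phase n | b.repr z j < δ} :=
      isOpen_lt (com_repr_cont b j) continuous_const
    filter_upwards [ho.mem_nhds h] with z hz
    rcases le_or_gt (b.repr z j) 0 with h0 | h0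
    · exact h1 z h0
    · rw [h2 z h0, hQ z (by linarith) hz]
  · right
    have ho : IsOpen {z : Phase n | 0 < b.repr z j} :=
      isOpen_lt continuous_const (com_repr_cont b j)
    filter_upwards [ho.mem_nhds (lt_of_lt_of_le hδ h)] with z hz
    exact h2 z hz

lemma com_local_contDiff {Q ψ : Phase n → Phase n} (hQ : ContDiff ℝ ∞ Q)
    (h : ∀ x, ψ =ᶠ[𝓝 x] Q ∨ ψ =ᶠ[𝓝 x] id) : ContDiff ℝ ∞ ψ := by
  rw [contDiff_iff_contDiffAt]
  intro x
  rcases h x with h | h
  · exact hQ.contDiffAt.congr_of_eventuallyEq h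
  · exact contDiff_id.contDiffAt.congr_of_eventuallyEq h

theorem thm_Compare (hCurve : St_Curve) (hFlow : St_CutFlow) : St_Compare := by
  intro n N b j f P R δ hδ hδ' hlev hf hPf
  have hP : ∀ x, P (x + b j) = P x + b j := fun x => hlev.per () j (Nat.lt_succ_self _) x
  have hhalf := com_half hδ hδ' hP hf hPf
  have hz := @com_zero n N b j f P δ hδ' hP hf hPf
  have hz' : ∀ x, -δ < b.repr x j → b.repr x j < δ → P.symm x = x := by
    intro x h0 h1
    rw [Equiv.symm_apply_eq]
    exact (hz h0 h1).symm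
  have hPc : ContDiff ℝ ∞ P := hlev.cf.contDiff ()
  have hPc' : ContDiff ℝ ∞ P.symm := hlev.cf'.contDiff ()
  have hPs := hlev.symp ()
  set ψ : Equiv.Perm (Phase n) := com_neg b j P hhalf with hψ
  have hloc : ∀ x, (ψ : Phase n → Phase n) =ᶠ[𝓝 x] P ∨ (ψ : Phase n → Phase n) =ᶠ[𝓝 x] id :=
    com_local hδ (fun x h0 h1 => hz h0 h1) (fun x hx => com_neg_pos hx)
      (fun x hx => com_neg_neg hx)
  have hloc' : ∀ x, (ψ.symm : Phase n → Phase n) =ᶠ[𝓝 x] P.symm ∨
      (ψ.symm : Phase n → Phase n) =ᶠ[𝓝 x] id :=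
    com_local hδ hz' (fun x hx => com_neg_symm_pos hx) (fun x hx => com_neg_symm_neg hx)
  have hψc : ContDiff ℝ ∞ ψ := com_local_contDiff hPc hloc
  have hψc' : ContDiff ℝ ∞ ψ.symm := com_local_contDiff hPc' hloc'
  have hψs : ∀ p u v : Phase n, omegaStd (fderiv ℝ ψ p u) (fderiv ℝ ψ p v) = omegaStd u v := by
    intro p u v
    rcases hloc p with h | h
    · rw [h.fderiv_eq]; exact hPs p u v
    · rw [h.fderiv_eq, fderiv_id]; simp
  -- the Hamiltonians agree
  have hH : ∀ a z, cutH b j (cmpCut δ 1) P a z = kap (b j) ψ.symm (z - a • b j) := by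
    intro a z
    unfold cutH
    rw [cmpCut_one]
    have h1 : b.repr z j - a = b.repr (z - a • b j) j := (com_repr_sub b z a j).symm
    rw [h1]
    set y := z - a • b j with hy
    rcases le_or_gt (b.repr y j) (-δ) with h | h
    · rw [sig_one hδ h, one_mul]
      unfold kap
      rw [hψ, com_neg_symm_pos (by linarith)]
    · rcases lt_or_ge (b.repr y j) δ with h' | h'
      · have h2 : ψ.symm y = y := by
          rcases le_or_gt (b.repr y j) 0 with h0 | h0
          · rw [hψ, com_neg_symm_pos h0, hz' y h h']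
          · rw [hψ, com_neg_symm_neg h0]
        unfold kap
        rw [h2, hz' y h h', sub_self, omegaStd_zero_left, mul_zero]
      · rw [sig_zero hδ h', zero_mul]
        unfold kap
        rw [hψ, com_neg_symm_neg (by linarith), sub_self, omegaStd_zero_left]
  have hHf : cutH b j (cmpCut δ 1) P = fun a z => kap (b j) ψ.symm (z - a • b j) := by
    funext a z; exact hH a z
  have hfx : ∀ x, b.repr x j < δ ∨ 1 - δ < b.repr x j → f x = x := by
    intro x hx
    by_contra h
    have := hf x h
    rcases hx with hx | hx <;> linarith [this.1, this.2]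
  have hfirst : ∀ x, ∃ r : ℝ → Phase n, r 0 = x ∧ r 1 = f x ∧
      IsHamCurve (cutH b j (cmpCut δ 1) P) r := by
    intro x
    refine ⟨fun a => ψ (ψ.symm x - a • b j) + a • b j, ?_, ?_, ?_⟩
    · simp
    · simp only [one_smul]
      rcases le_or_gt (b.repr x j) 0 with h | h
      · have h1 : ψ.symm x = P.symm x := com_neg_symm_pos h
        have h2 : b.repr (P.symm x) j ≤ 0 := by
          rw [← hhalf (P.symm x), Equiv.apply_symm_apply]; exact h
        have h3 : b.repr (P.symm x - b j) j = b.repr (P.symm x) j - 1 := by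
          have := com_repr_sub b (P.symm x) 1 j
          rwa [one_smul] at this
        have h4 : ψ (P.symm x - b j) = P (P.symm x - b j) :=
          com_neg_pos (by rw [h3]; linarith)
        rw [h1, h4, ← hP, sub_add_cancel, Equiv.apply_symm_apply, hfx x (Or.inl (by linarith))]
      · have h1 : ψ.symm x = x := com_neg_symm_neg h
        have h3 : b.repr (x - b j) j = b.repr x j - 1 := by
          have := com_repr_sub b x 1 j
          rwa [one_smul] at this
        rw [h1]
        rcases le_or_gt (b.repr x j) 1 with h' | h'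
        · have h4 : ψ (x - b j) = P (x - b j) := com_neg_pos (by rw [h3]; linarith)
          rw [h4, ← hP, sub_add_cancel, hPf x h.le h']
        · have h4 : ψ (x - b j) = x - b j := com_neg_neg (by rw [h3]; linarith)
          rw [h4, sub_add_cancel, hfx x (Or.inr (by linarith))]
    · rw [hHf]
      exact hCurve (b j) ψ hψc hψc' hψs x
  obtain ⟨R', G, -, hG⟩ := hFlow b j Unit (fun _ => P) R hlev 2 _
    (cutFam_cmp hδ hδ' (s := fun _ : Unit => 1) continuous_const)
  have hG1 : IsTimeOne (cutH b j (cmpCut δ 1) P) (G ()) := hG ()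
  have hGf : G () = f := by
    ext1 x
    obtain ⟨r, r0, r1, hr⟩ := hfirst x
    have := hG1.2 r hr
    rw [r0, r1] at this
    exact this.symm
  rw [hGf] at hG1
  exact hG1

end compare

end Pool.Agent.TOR
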