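import Mathlib
import Pool.Agent.TOR.Stmts

set_option maxSynthPendingDepth 3

open scoped ContDiff Distributions Topology
open Set Function TopologicalSpace

namespace Pool.Agent.TOR

open Pool.Agent.Helper17

/-- The pairing with a fixed vector, as a continuous linear map. -/
noncomputable def cur_om {n : ℕ} (e : Phase n) : Phase n →L[ℝ] ℝ :=
  LinearMap.toContinuousLinearMap
    { toFun := fun u => omegaStd u e
      map_add' := fun u u' => omegaStd_add_left u u' e
      map_smul' := fun c u => omegaStd_smul_left c u e }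

@[simp] lemma cur_om_apply {n : ℕ} (e u : Phase n) : cur_om e u = omegaStd u e := rfl

lemma cur_swap {n : ℕ} (u v : Phase n) : omegaStd u v = -omegaStd v u := by
  simp only [omegaStd, ← Finset.sum_neg_distrib]
  exact Finset.sum_congr rfl fun i _ => by ring

theorem thm_Curve : St_Curve := by
  intro n e ψ hψ hψs hsymp x a _
  set w : Phase n := ψ.symm x - a • e with hw
  set A : Phase n →L[ℝ] Phase n := fderiv ℝ ψ w with hA
  set B : Phase n →L[ℝ] Phase n := fderiv ℝ ψ.symm (ψ w) with hB
  have hψd : HasFDerivAt ψ A w := (hψ.differentiable (by simp) w).hasFDerivAt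
  have hψsd : HasFDerivAt ψ.symm B (ψ w) := (hψs.differentiable (by simp) (ψ w)).hasFDerivAt
  have hAB : ∀ v, A (B v) = v := by
    have h1 : HasFDerivAt (fun y => ψ (ψ.symm y)) (A.comp B) (ψ w) := by
      have h2 : HasFDerivAt ψ A (ψ.symm (ψ w)) := by
        rw [Equiv.symm_apply_apply]; exact hψd
      exact h2.comp (ψ w) hψsd
    have h3 : (fun y => ψ (ψ.symm y)) = (id : Phase n → Phase n) := by
      funext y; simp
    rw [h3] at h1
    have h4 : A.comp B = ContinuousLinearMap.id ℝ (Phase n) := h1.unique (hasFDerivAt_id _)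
    intro v
    have h5 := congrArg (fun L : Phase n →L[ℝ] Phase n => L v) h4
    simpa using h5
  have hAs : ∀ u v, omegaStd (A u) (A v) = omegaStd u v := fun u v => hsymp w u v
  -- the point
  have hpt : ψ w + a • e - a • e = ψ w := by abel
  -- the derivative of the Hamiltonian
  have hH : HasFDerivAt (fun z : Phase n => kap e ψ.symm (z - a • e))
      ((cur_om e).comp (ContinuousLinearMap.id ℝ (Phase n) - B)) (ψ w + a • e) := by
    have h1 : HasFDerivAt (fun z : Phase n => z - a • e) (ContinuousLinearMap.id ℝ (Phase n))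
        (ψ w + a • e) := (hasFDerivAt_id _).sub_const _
    have h2 : HasFDerivAt (fun y : Phase n => y - ψ.symm y)
        (ContinuousLinearMap.id ℝ (Phase n) - B) (ψ w + a • e - a • e) := by
      rw [hpt]
      exact (hasFDerivAt_id _).sub hψsd
    have h3 := (cur_om e).hasFDerivAt.comp (ψ w + a • e) (h2.comp (ψ w + a • e) h1)
    exact h3
  have hV : H50.Susp.hamV (fun z : Phase n => kap e ψ.symm (z - a • e)) (ψ w + a • e) =
      e - A e := by
    rw [← sub_eq_zero]
    apply eq_zero_of_omegaStd
    intro v
    rw [omegaStd_sub_left, H50.Susp.omegaStd_hamV, hH.fderiv, omegaStd_sub_left]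
    have h1 : omegaStd (A e) v = omegaStd e (B v) := by
      rw [← hAs e (B v), hAB]
    rw [h1]
    simp only [ContinuousLinearMap.comp_apply, cur_om_apply, sub_apply,
      ContinuousLinearMap.id_apply]
    rw [omegaStd_sub_left, cur_swap e v, cur_swap e (B v)]
    ring
  have hr : HasDerivAt (fun a : ℝ => ψ (ψ.symm x - a • e) + a • e) (e - A e) a := by
    have h1 : HasDerivAt (fun a : ℝ => ψ.symm x - a • e) (-e) a := by
      have h2 : HasDerivAt (fun a : ℝ => a • e) ((1 : ℝ) • e) a := (hasDerivAt_id a).smul_const e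
      have h3 := h2.const_sub (ψ.symm x)
      rwa [one_smul] at h3
    have h4 : HasDerivAt (fun a : ℝ => ψ (ψ.symm x - a • e)) (A (-e)) a :=
      hψd.comp_hasDerivAt a h1
    have h5 : HasDerivAt (fun a : ℝ => a • e) ((1 : ℝ) • e) a := (hasDerivAt_id a).smul_const e
    have h6 := h4.add h5
    rw [one_smul, map_neg] at h6
    have h7 : e - A e = -A e + e := by abel
    rw [h7]
    exact h6
  change HasDerivAt (fun a : ℝ => ψ (ψ.symm x - a • e) + a • e)
    (H50.Susp.hamV (fun z : Phase n => kap e ψ.symm (z - a • e)) (ψ w + a • e)) a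
  rw [hV]
  exact hr

end Pool.Agent.TOR
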