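import Mathlib
import Pool.Agent.TOR.Stmts

set_option maxSynthPendingDepth 3

open scoped ContDiff Distributions Topology
open Set Function TopologicalSpace

namespace Pool.Agent.TOR

open Pool.Agent.Helper17

/-- The pairing with a fixed vector, as a continuous linear map. -/
noncomputable def cut_om {n : ℕ} (e : Phase n) : Phase n →L[ℝ] ℝ :=
  LinearMap.toContinuousLinearMap
    { toFun := fun u => omegaStd u e
      map_add' := fun u u' => omegaStd_add_left u u' e
      map_smul' := fun c u => omegaStd_smul_left c u e }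

lemma cut_om_apply {n : ℕ} (e u : Phase n) : cut_om e u = omegaStd u e := rfl

/-- The coordinate of index `j`, as a continuous linear map. -/
noncomputable def cut_xi {n N : ℕ} (b : Module.Basis (Fin N) ℝ (Phase n)) (j : Fin N) :
    Phase n →L[ℝ] ℝ :=
  LinearMap.toContinuousLinearMap (b.coord j)

lemma cut_xi_apply {n N : ℕ} (b : Module.Basis (Fin N) ℝ (Phase n)) (j : Fin N) (x : Phase n) :
    cut_xi b j x = b.repr x j := rfl

lemma cut_xi_continuous {n N : ℕ} (b : Module.Basis (Fin N) ℝ (Phase n)) (j : Fin N) :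
    Continuous (fun x : Phase n => b.repr x j) := (cut_xi b j).continuous

lemma cut_isClosed_slab {n N : ℕ} (b : Module.Basis (Fin N) ℝ (Phase n)) (j : ℕ) (R : ℝ) :
    IsClosed (slab b j R) := by
  have h : slab b j R = ⋂ i : Fin N, ⋂ _ : j ≤ (i : ℕ), {x : Phase n | |b.repr x i| ≤ R} := by
    ext x
    simp [slab]
  rw [h]
  refine isClosed_iInter fun i => isClosed_iInter fun _ => ?_
  exact isClosed_le ((cut_xi_continuous b i).abs) continuous_const

lemma cut_repr_add_basis {n N : ℕ} (b : Module.Basis (Fin N) ℝ (Phase n)) {i j : Fin N}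
    (hij : i ≠ j) (x : Phase n) : b.repr (x + b i) j = b.repr x j := by
  rw [map_add, Finsupp.add_apply, b.repr_self, Finsupp.single_eq_of_ne' hij, add_zero]

lemma cut_repr_sub_smul {n N : ℕ} (b : Module.Basis (Fin N) ℝ (Phase n)) {i j : Fin N}
    (hij : i ≠ j) (x : Phase n) (a : ℝ) : b.repr (x - a • b i) j = b.repr x j := by
  rw [map_sub, Finsupp.sub_apply, map_smul, Finsupp.smul_apply, b.repr_self,
    Finsupp.single_eq_of_ne' hij, smul_zero, sub_zero]

lemma cut_sub_mem_slab {n N : ℕ} (b : Module.Basis (Fin N) ℝ (Phase n)) (j : Fin N) (R : ℝ)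
    (x : Phase n) (a : ℝ) (h : x - a • b j ∈ slab b ((j : ℕ) + 1) R) :
    x ∈ slab b ((j : ℕ) + 1) R := by
  intro i hi
  have hij : j ≠ i := by
    rintro rfl
    omega
  have h1 := h i hi
  rwa [cut_repr_sub_smul b hij] at h1

lemma cut_hamV_per {n : ℕ} {f : Phase n → ℝ} {v : Phase n} (h : ∀ x, f (x + v) = f x)
    (x : Phase n) : H50.Susp.hamV f (x + v) = H50.Susp.hamV f x := by
  have h1 : fderiv ℝ f (x + v) = fderiv ℝ f x := by
    rw [← fderiv_comp_add_right]
    congr 1
    funext y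
    exact h y
  simp only [H50.Susp.hamV]
  rw [h1]

lemma cut_fderiv_hamV_per {n : ℕ} {f : Phase n → ℝ} {v : Phase n} (h : ∀ x, f (x + v) = f x)
    (x : Phase n) : fderiv ℝ (H50.Susp.hamV f) (x + v) = fderiv ℝ (H50.Susp.hamV f) x := by
  rw [← fderiv_comp_add_right]
  congr 1
  funext y
  exact cut_hamV_per h y

lemma cut_fderiv_hamV_congr {n : ℕ} {f g : Phase n → ℝ} {x : Phase n} (h : f =ᶠ[𝓝 x] g) :
    fderiv ℝ (H50.Susp.hamV f) x = fderiv ℝ (H50.Susp.hamV g) x := by
  apply Filter.EventuallyEq.fderiv_eq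
  filter_upwards [h.eventuallyEq_nhds] with y hy
  simp only [H50.Susp.hamV]
  rw [hy.fderiv_eq]

lemma cut_fderiv_hamV_zero {n : ℕ} {f : Phase n → ℝ} {x : Phase n}
    (h : f =ᶠ[𝓝 x] fun _ => 0) : fderiv ℝ (H50.Susp.hamV f) x = 0 := by
  rw [cut_fderiv_hamV_congr h]
  have h1 : H50.Susp.hamV (fun _ : Phase n => (0 : ℝ)) = fun _ => 0 := by
    funext y
    simp [H50.Susp.hamV]
  rw [h1]
  simp

theorem thm_CutBound (hBox : St_Box) : St_CutBound := by
  intro n N b j T _ _ F R hF C c hc
  have hsper : ∀ t, ∀ i : Fin N, (i : ℕ) < (j : ℕ) + 1 → ∀ x,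
      (F t).symm (x + b i) = (F t).symm x + b i := by
    intro t i hi x
    rw [Equiv.symm_apply_eq, hF.per t i hi, Equiv.apply_symm_apply]
  have hssupp : ∀ t, ∀ x ∉ slab b ((j : ℕ) + 1) R, (F t).symm x = x := by
    intro t x hx
    rw [Equiv.symm_apply_eq, hF.supp t x hx]
  -- smoothness of the family
  have htr : CF (fun (p : T × Icc (0 : ℝ) 1) (z : Phase n) => z - (p.2 : ℝ) • b j) :=
    (CF.const contDiff_id).sub (CF.param (by fun_prop))
  have hinv : CF (fun (p : T × Icc (0 : ℝ) 1) (z : Phase n) =>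
      (F p.1).symm (z - (p.2 : ℝ) • b j)) :=
    (hF.cf'.base (h := fun p : T × Icc (0 : ℝ) 1 => p.1) continuous_fst).comp htr
  have hK : CF (fun (p : T × Icc (0 : ℝ) 1) (z : Phase n) =>
      kap (b j) (F p.1).symm (z - (p.2 : ℝ) • b j)) :=
    (htr.sub hinv).clm (cut_om (b j))
  have hcx : CF (fun (p : T × Icc (0 : ℝ) 1) (z : Phase n) => c p.1 (p.2 : ℝ) (b.repr z j)) :=
    hc.cf.comp (CF.const (f := fun z : Phase n => b.repr z j) (cut_xi b j).contDiff)
  have hH : CF (fun (p : T × Icc (0 : ℝ) 1) (z : Phase n) =>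
      cutH b j (c p.1) (F p.1) (p.2 : ℝ) z) := hcx.smul hK
  refine ⟨hH, ?_⟩
  have hG : Continuous (fun q : (T × Icc (0 : ℝ) 1) × Phase n =>
      fderiv ℝ (H50.Susp.hamV (cutH b j (c q.1.1) (F q.1.1) (q.1.2 : ℝ))) q.2) :=
    (H50.Susp.CF_hamV hH).fderiv.continuous
  have hG' : Continuous (fun q : (T × Icc (0 : ℝ) 1) × Phase n =>
      fderiv ℝ (H50.Susp.hamV (fun z : Phase n =>
        kap (b j) (F q.1.1).symm (z - (q.1.2 : ℝ) • b j))) q.2) :=
    (H50.Susp.CF_hamV hK).fderiv.continuous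
  have hKper : ∀ t (a : ℝ), ∀ i : Fin N, (i : ℕ) < (j : ℕ) + 1 → ∀ z : Phase n,
      kap (b j) (F t).symm (z + b i - a • b j) = kap (b j) (F t).symm (z - a • b j) := by
    intro t a i hi z
    have h1 : z + b i - a • b j = (z - a • b j) + b i := by abel
    simp only [kap]
    rw [h1, hsper t i hi]
    congr 1
    abel
  obtain ⟨C1, hC1⟩ := hBox b (j : ℕ) (max R C) (T × Icc (0 : ℝ) 1) (Phase n →L[ℝ] Phase n)
    (fun q => fderiv ℝ (H50.Susp.hamV (cutH b j (c q.1.1) (F q.1.1) (q.1.2 : ℝ))) q.2) hG (by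
      intro p x i hi
      apply cut_fderiv_hamV_per
      intro z
      have hij : i ≠ j := by
        rintro rfl
        omega
      simp only [cutH]
      rw [cut_repr_add_basis b hij, hKper p.1 (p.2 : ℝ) i (by omega)])
  obtain ⟨C2, hC2⟩ := hBox b ((j : ℕ) + 1) R (T × Icc (0 : ℝ) 1) (Phase n →L[ℝ] Phase n)
    (fun q => fderiv ℝ (H50.Susp.hamV (fun z : Phase n =>
        kap (b j) (F q.1.1).symm (z - (q.1.2 : ℝ) • b j))) q.2) hG' (by
      intro p x i hi
      apply cut_fderiv_hamV_per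
      intro z
      exact hKper p.1 (p.2 : ℝ) i hi z)
  refine ⟨max (max C1 C2) 0, ?_⟩
  intro t a ha x
  have hz : (0 : ℝ) ≤ max (max C1 C2) 0 := le_max_right _ _
  by_cases hx : x ∈ slab b ((j : ℕ) + 1) R
  · rcases lt_or_ge C (b.repr x j) with h1 | h1
    · -- the cut-off function vanishes near the point
      have h2 : cutH b j (c t) (F t) a =ᶠ[𝓝 x] fun _ => 0 := by
        have h3 : ∀ᶠ y in 𝓝 x, C < b.repr y j :=
          (cut_xi_continuous b j).continuousAt.eventually (lt_mem_nhds h1)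
        filter_upwards [h3] with y hy
        simp only [cutH]
        rw [hc.zero t a ha _ hy.le, zero_mul]
      rw [cut_fderiv_hamV_zero h2, norm_zero]
      exact hz
    · rcases lt_or_ge (b.repr x j) (-C) with h2 | h2
      · have h3 : cutH b j (c t) (F t) a =ᶠ[𝓝 x] fun z : Phase n =>
            kap (b j) (F t).symm (z - a • b j) := by
          have h4 : ∀ᶠ y in 𝓝 x, b.repr y j < -C :=
            (cut_xi_continuous b j).continuousAt.eventually (gt_mem_nhds h2)
          filter_upwards [h4] with y hy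
          simp only [cutH]
          rw [hc.one t a ha _ hy.le, one_mul]
        rw [cut_fderiv_hamV_congr h3]
        exact (hC2 (t, ⟨a, ha⟩) x hx).trans ((le_max_right _ _).trans (le_max_left _ _))
      · have h3 : x ∈ slab b (j : ℕ) (max R C) := by
          intro i hi
          rcases hi.eq_or_lt with h4 | h4
          · have h5 : i = j := Fin.ext h4.symm
            rw [h5]
            exact (abs_le.2 ⟨h2, h1⟩).trans (le_max_right _ _)
          · exact (hx i (by omega)).trans (le_max_left _ _)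
        exact (hC1 (t, ⟨a, ha⟩) x h3).trans ((le_max_left _ _).trans (le_max_left _ _))
  · -- the map is the identity near the point
    have h2 : cutH b j (c t) (F t) a =ᶠ[𝓝 x] fun _ => 0 := by
      have h3 : ∀ᶠ y in 𝓝 x, y ∉ slab b ((j : ℕ) + 1) R :=
        (cut_isClosed_slab b ((j : ℕ) + 1) R).isOpen_compl.mem_nhds hx
      filter_upwards [h3] with y hy
      have h4 : y - a • b j ∉ slab b ((j : ℕ) + 1) R := fun h5 =>
        hy (cut_sub_mem_slab b j R y a h5)
      simp only [cutH, kap]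
      rw [hssupp t _ h4, sub_self, omegaStd_zero_left, mul_zero]
    rw [cut_fderiv_hamV_zero h2, norm_zero]
    exact hz

end Pool.Agent.TOR
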