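import Mathlib
import Pool.Agent.TOR.Stmts

set_option maxSynthPendingDepth 3

/-!
Module KCont. Continuity on the images of all compact spaces gives continuity on first countable
spaces: use a convergent sequence as a continuous map from the one point compactification.
-/

open scoped ContDiff Distributions Topology
open Set Function TopologicalSpace

namespace Pool.Agent.TOR

open Pool.Agent.Helper17

theorem thm_KCont : St_KCont := by
  intro X Y _ _ _ W hW
  rw [continuous_iff_seqContinuous]
  intro u x hu
  let F : C(OnePoint ℕ, X) := OnePoint.continuousMapMkNat u x hu
  have h1 := hW (OnePoint ℕ) F F.continuous
  rw [OnePoint.continuous_iff_from_nat] at h1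
  exact h1

end Pool.Agent.TOR
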