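import Mathlib
import Pool.Agent.TOR.Defs
import Pool.Agent.TOR.Stmts
import Pool.Agent.TOR.Assemble
import Pool.Agent.TOR.Box
import Pool.Agent.TOR.Curve
import Pool.Agent.TOR.HamFlow
import Pool.Agent.TOR.CutBound
import Pool.Agent.TOR.CutFlow
import Pool.Agent.TOR.Compare
import Pool.Agent.TOR.Pers
import Pool.Agent.TOR.TorTop
import Pool.Agent.TOR.KCont
import Pool.Agent.TOR.Dil

set_option maxSynthPendingDepth 3

namespace Pool.Agent.TOR

open Pool.Agent.Helper17

theorem cutFlow : St_CutFlow :=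
  thm_CutFlow thm_Box thm_Curve thm_HamFlow (thm_CutBound thm_Box)

theorem main {n N : ℕ} (b : Module.Basis (Fin N) ℝ (Phase n)) : MainStatement b :=
  assemble cutFlow (thm_Compare thm_Curve cutFlow) thm_Pers (thm_TorTop thm_Box) thm_KCont
    thm_Dil b

end Pool.Agent.TOR
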