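import Pool.Agent.CRC.St
import Pool.Agent.CRC.Basic
import Pool.Agent.CRC.MOM

/-!
# TOR: averaging the phase of an exact pair over a circle of linear maps
-/

set_option autoImplicit false

open scoped ContDiff Topology
open Set Function TopologicalSpace MeasureTheory

namespace Pool.Agent.TOR

open Pool.Agent.Helper17 Pool.Agent.Helper42 Pool.Agent.H50.Susp Pool.Agent.CRC

/-- a circle of linear symplectic isometries which fix `z_0` -/
structure LinCircle {n : ℕ} (Λ : ℝ → Phase (n + 1) →L[ℝ] Phase (n + 1)) : Prop where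
  cf : CF (fun (s : ℝ) (p : Phase (n + 1)) => Λ s p)
  add : ∀ s r p, Λ (s + r) p = Λ s (Λ r p)
  per : ∀ p, Λ (2 * Real.pi) p = p
  norm : ∀ s p, ‖Λ s p‖ = ‖p‖
  symp : ∀ s u v, omegaStd (Λ s u) (Λ s v) = omegaStd u v
  z : ∀ s p, zz (Λ s p) = zz p

/-- linear symplectic maps and Hamiltonian vector fields -/
lemma map_hamV_lin {N : ℕ} {f : Phase N → ℝ} (hf : Differentiable ℝ f)
    (L : Phase N →L[ℝ] Phase N) (hL : ∀ u v, omegaStd (L u) (L v) = omegaStd u v) (p : Phase N) :
    L (hamV (fun q => f (L q)) p) = hamV f (L p) := by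
  rw [← sub_eq_zero]
  apply eq_zero_of_omegaStd
  intro w'
  obtain ⟨w, rfl⟩ := MOM.symp_surj hL w'
  have h1 : HasFDerivAt (fun q => f (L q)) ((fderiv ℝ f (L p)).comp L) p :=
    (hf _).hasFDerivAt.comp p L.hasFDerivAt
  rw [omegaStd_sub_left, hL, omegaStd_hamV, omegaStd_hamV, h1.fderiv]
  simp

lemma pb_lin {N : ℕ} {f g : Phase N → ℝ} (hf : Differentiable ℝ f) (hg : Differentiable ℝ g)
    (L : Phase N →L[ℝ] Phase N) (hL : ∀ u v, omegaStd (L u) (L v) = omegaStd u v) (p : Phase N) :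
    pb (fun q => f (L q)) (fun q => g (L q)) p = pb f g (L p) := by
  have h1 : HasFDerivAt (fun q => g (L q)) ((fderiv ℝ g (L p)).comp L) p :=
    (hg _).hasFDerivAt.comp p L.hasFDerivAt
  rw [pb, h1.fderiv, ContinuousLinearMap.comp_apply, map_hamV_lin hf L hL, pb]

lemma ex_lin {n : ℕ} {R : ℝ} {a : Phase (n + 1) → ℂ} (ha : Ex R a)
    (L : Phase (n + 1) →L[ℝ] Phase (n + 1)) (hL : ∀ u v, omegaStd (L u) (L v) = omegaStd u v)
    (hn : ∀ p, ‖L p‖ = ‖p‖) (hz : ∀ p, zz (L p) = zz p) : Ex R (fun p => a (L p)) where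
  smooth := ha.smooth.comp L.contDiff
  std p hp := by
    rw [ha.std _ (by rw [hn]; exact hp), hz]
  br p := by
    have h1 : Differentiable ℝ (fun q => (a q).re) :=
      (Complex.reCLM.contDiff.comp ha.smooth).differentiable (by simp)
    have h2 : Differentiable ℝ (fun q => (a q).im) :=
      (Complex.imCLM.contDiff.comp ha.smooth).differentiable (by simp)
    have h3 := pb_lin h1 h2 L hL p
    rw [ha.br] at h3
    exact h3

/-- **Avg**: the phase of a family of exact pairs whose modulus is invariant under a circle of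
linear maps can be changed such that the pairs become invariant -/
theorem avg (hFIB : St_FIB) (hEXP : St_EXP) {n : ℕ}
    {Λ : ℝ → Phase (n + 1) →L[ℝ] Phase (n + 1)} (hΛ : LinCircle Λ)
    (T : Type) [TopologicalSpace T] [CompactSpace T] (R : ℝ) (a : T → Phase (n + 1) → ℂ)
    (ha : CF a) (hE : ∀ t, Ex R (a t)) (hn : ∀ t s p, ‖a t (Λ s p)‖ = ‖a t p‖) :
    ∃ b : T → Phase (n + 1) → ℂ, CF b ∧ (∀ t, Ex R (b t)) ∧ (∀ t p, ‖b t p‖ = ‖a t p‖) ∧
      (∀ t s p, b t (Λ s p) = b t p) ∧
      (∀ t, (∀ s p, a t (Λ s p) = a t p) → ∀ p, b t p = a t p) ∧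
      ∀ M : Phase (n + 1) → Phase (n + 1), Continuous M → (∀ p, ‖M p‖ = ‖p‖) →
        (∀ s p, Λ s (M p) = M (Λ s p)) → ∀ t, (∀ p, a t (M p) = a t p) →
        ∀ p, b t (M p) = b t p := by
  have hpi := Real.two_pi_pos
  -- the family of phases
  have hA : CF (fun (q : T × Icc (0 : ℝ) (2 * Real.pi)) (p : Phase (n + 1)) => a q.1 p) :=
    CF.base (T := T) (h := fun q : T × Icc (0 : ℝ) (2 * Real.pi) => q.1) continuous_fst ha
  have hL : CF (fun (q : T × Icc (0 : ℝ) (2 * Real.pi)) (p : Phase (n + 1)) => Λ q.2 p) :=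
    CF.base (T := ℝ) (h := fun q : T × Icc (0 : ℝ) (2 * Real.pi) => (q.2 : ℝ))
      (continuous_subtype_val.comp continuous_snd) hΛ.cf
  have hB : CF (fun (q : T × Icc (0 : ℝ) (2 * Real.pi)) (p : Phase (n + 1)) =>
      a q.1 (Λ q.2 p)) := CF.comp hA hL
  obtain ⟨η, hη, hη0, hηe⟩ := (hFIB n R).1 (T × Icc (0 : ℝ) (2 * Real.pi))
    (fun q p => a q.1 p) (fun q p => a q.1 (Λ q.2 p)) hA hB (fun q => hE q.1)
    (fun q => ex_lin (hE q.1) (Λ q.2) (hΛ.symp q.2) (hΛ.norm q.2) (hΛ.z q.2))
    (fun q p => (hn q.1 q.2 p).symm)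
  have hcη : ∀ q, Continuous (η q) := fun q => (hη.contDiff q).continuous
  have huniq := fun t => (hFIB n R).2 (a t)
  -- periodicity
  have hper : ∀ p, Function.Periodic (fun s => Λ s p) (2 * Real.pi) := by
    intro p s
    show Λ (s + 2 * Real.pi) p = Λ s p
    rw [hΛ.add, hΛ.per]
  have hmem : ∀ s : ℝ, toIocMod hpi 0 s ∈ Icc (0 : ℝ) (2 * Real.pi) := by
    intro s
    have h := toIocMod_mem_Ioc hpi 0 s
    rw [zero_add] at h
    exact ⟨h.1.le, h.2⟩
  obtain ⟨g, hg⟩ : ∃ g : T → ℝ → Phase (n + 1) → ℝ,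
      ∀ t s p, g t s p = η (t, ⟨toIocMod hpi 0 s, hmem s⟩) p := ⟨_, fun _ _ _ => rfl⟩
  have hgc : ∀ t s, Continuous (g t s) := by
    intro t s
    have h := hcη (t, ⟨toIocMod hpi 0 s, hmem s⟩)
    have h1 : g t s = η (t, ⟨toIocMod hpi 0 s, hmem s⟩) := funext fun p => hg t s p
    rw [h1]
    exact h
  have hg0 : ∀ t s p, R < ‖p‖ → g t s p = 0 := by
    intro t s p hp
    rw [hg]
    exact hη0 _ p hp
  have hge : ∀ t s p, a t (Λ s p) = a t p * Complex.exp (g t s p * Complex.I) := by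
    intro t s p
    have h1 := hηe (t, ⟨toIocMod hpi 0 s, hmem s⟩) p
    rw [← hg] at h1
    have h2 : Λ s p = Λ (toIocMod hpi 0 s) p := by
      have h3 := toIocMod_add_toIocDiv_zsmul hpi 0 s
      have h4 := (hper p).zsmul (toIocDiv hpi 0 s) (toIocMod hpi 0 s)
      rw [h3] at h4
      exact h4
    rw [h2]
    exact h1
  have hgu : ∀ t s (h : Phase (n + 1) → ℝ), Continuous h → (∀ p, R < ‖p‖ → h p = 0) →
      (∀ p, a t (Λ s p) = a t p * Complex.exp (h p * Complex.I)) → h = g t s := by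
    intro t s h h1 h2 h3
    exact huniq t h (g t s) (hE t) h1 (hgc t s) h2 (hg0 t s) fun p => by
      rw [← h3, ← hge]
  have hcoc : ∀ t s r p, g t s (Λ r p) = g t (s + r) p - g t r p := by
    intro t s r p
    have h1 := hgu t (s + r) (fun p => g t r p + g t s (Λ r p))
      ((hgc t r).add ((hgc t s).comp (Λ r).continuous))
      (fun p hp => by
        rw [hg0 t r p hp, hg0 t s _ (by rw [hΛ.norm]; exact hp), add_zero])
      (fun p => by
        rw [hΛ.add, hge, hge, mul_assoc, ← Complex.exp_add]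
        congr 2
        push_cast
        ring)
    have h2 : g t r p + g t s (Λ r p) = g t (s + r) p := congrFun h1 p
    linarith
  have hgp : ∀ t p, Function.Periodic (fun s => g t s p) (2 * Real.pi) := by
    intro t p s
    show g t (s + 2 * Real.pi) p = g t s p
    have h1 : (⟨toIocMod hpi 0 (s + 2 * Real.pi), hmem _⟩ : Icc (0 : ℝ) (2 * Real.pi)) =
        ⟨toIocMod hpi 0 s, hmem s⟩ := Subtype.ext (toIocMod_add_right hpi 0 s)
    rw [hg, hg, h1]
  -- the clamped family
  have hcl : CF (fun (q : T × ℝ) (p : Phase (n + 1)) =>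
      η (q.1, projIcc 0 (2 * Real.pi) hpi.le q.2) p) :=
    CF.base (h := fun q : T × ℝ => ((q.1, projIcc 0 (2 * Real.pi) hpi.le q.2) :
      T × Icc (0 : ℝ) (2 * Real.pi)))
      (continuous_fst.prodMk (continuous_projIcc.comp continuous_snd)) hη
  have hint := CF.setIntegral (S := Icc 0 (2 * Real.pi)) isCompact_Icc
    ((volume : Measure ℝ).restrict (Icc 0 (2 * Real.pi))) hcl
  obtain ⟨J, hJ⟩ : ∃ J : T → Phase (n + 1) → ℝ, ∀ t p, J t p =
      ∫ s in Icc 0 (2 * Real.pi), η (t, projIcc 0 (2 * Real.pi) hpi.le s) p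
        ∂((volume : Measure ℝ).restrict (Icc 0 (2 * Real.pi))) := ⟨_, fun _ _ => rfl⟩
  have hJcf : CF J := by
    have h1 : J = fun t p => ∫ s in Icc 0 (2 * Real.pi),
        η (t, projIcc 0 (2 * Real.pi) hpi.le s) p
          ∂((volume : Measure ℝ).restrict (Icc 0 (2 * Real.pi))) := by
      funext t p
      exact hJ t p
    rw [h1]
    exact hint
  have hcg : ∀ t p s, s ∈ Ioc (0 : ℝ) (2 * Real.pi) →
      η (t, projIcc 0 (2 * Real.pi) hpi.le s) p = g t s p := by
    intro t p s hs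
    rw [hg]
    congr 2
    apply Subtype.ext
    rw [projIcc_of_mem hpi.le ⟨hs.1.le, hs.2⟩]
    show s = toIocMod hpi 0 s
    exact ((toIocMod_eq_self hpi).2 (by rwa [zero_add])).symm
  have hJg : ∀ t p, J t p = ∫ s in (0 : ℝ)..(2 * Real.pi), g t s p := by
    intro t p
    rw [hJ, Measure.restrict_restrict_of_subset (Subset.refl _), integral_Icc_eq_integral_Ioc,
      intervalIntegral.integral_of_le hpi.le]
    exact setIntegral_congr_fun measurableSet_Ioc fun s hs => hcg t p s hs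
  have hgi : ∀ t p, IntervalIntegrable (fun s => g t s p) volume 0 (2 * Real.pi) := by
    intro t p
    have h1 : Continuous fun s : ℝ => η (t, projIcc 0 (2 * Real.pi) hpi.le s) p :=
      hcl.continuous.comp ((continuous_const.prodMk continuous_id).prodMk continuous_const)
    rw [intervalIntegrable_iff_integrableOn_Ioc_of_le hpi.le]
    exact ((h1.intervalIntegrable 0 (2 * Real.pi)).1.congr_fun
      (fun s hs => hcg t p s hs) measurableSet_Ioc)
  have hJL : ∀ t r p, J t (Λ r p) = J t p - 2 * Real.pi * g t r p := by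
    intro t r p
    rw [hJg, hJg]
    have h1 : IntervalIntegrable (fun s => g t s p) volume r (2 * Real.pi + r) := by
      refine (hgp t p).intervalIntegrable hpi.ne' (t := 0) ?_ r (2 * Real.pi + r)
      rw [zero_add]
      exact hgi t p
    have h2 : IntervalIntegrable (fun s => g t (s + r) p) volume 0 (2 * Real.pi) := by
      have h3 := h1.comp_add_right r
      simpa using h3
    have h3 : (∫ s in (0 : ℝ)..(2 * Real.pi), g t s (Λ r p)) =
        ∫ s in (0 : ℝ)..(2 * Real.pi), (g t (s + r) p - g t r p) :=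
      intervalIntegral.integral_congr fun s _ => hcoc t s r p
    rw [h3, intervalIntegral.integral_sub h2 intervalIntegrable_const,
      intervalIntegral.integral_comp_add_right (fun s => g t s p) r,
      intervalIntegral.integral_const, zero_add, add_comm (2 * Real.pi) r,
      (hgp t p).intervalIntegral_add_eq r 0, zero_add, sub_zero, smul_eq_mul]
  obtain ⟨ζ, hζ⟩ : ∃ ζ : T → Phase (n + 1) → ℝ, ∀ t p, ζ t p = (2 * Real.pi)⁻¹ * J t p :=
    ⟨_, fun _ _ => rfl⟩
  have hζcf : CF ζ := by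
    have h1 : ζ = fun t p => (2 * Real.pi)⁻¹ • J t p := by
      funext t p
      exact hζ t p
    rw [h1]
    exact CF.smul (CF.param (c := fun _ : T => (2 * Real.pi)⁻¹) continuous_const) hJcf
  have hζ0 : ∀ t p, R < ‖p‖ → ζ t p = 0 := by
    intro t p hp
    rw [hζ, hJg]
    have h1 : (∫ s in (0 : ℝ)..(2 * Real.pi), g t s p) = ∫ s in (0 : ℝ)..(2 * Real.pi), (0 : ℝ) :=
      intervalIntegral.integral_congr fun s _ => hg0 t s p hp
    rw [h1]
    simp
  have hζL : ∀ t r p, ζ t (Λ r p) = ζ t p - g t r p := by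
    intro t r p
    rw [hζ, hζ, hJL]
    field_simp
  have hsm : ContDiff ℝ ∞ (fun q : ℂ × ℝ => q.1 * Complex.exp (q.2 * Complex.I)) := by
    have h1 : ContDiff ℝ ∞ (fun x : ℝ => (x : ℂ)) := Complex.ofRealCLM.contDiff
    exact contDiff_fst.mul (Complex.contDiff_exp.comp
      ((h1.comp contDiff_snd).mul contDiff_const))
  refine ⟨fun t p => a t p * Complex.exp (ζ t p * Complex.I), ?_, fun t => ?_, fun t p => ?_,
    fun t s p => ?_, fun t h p => ?_, fun M hM hMn hMc t h p => ?_⟩
  · exact CF.comp_smooth (g := fun q : ℂ × ℝ => q.1 * Complex.exp (q.2 * Complex.I))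
      (fun t x => hsm.contDiffAt) (CF.prodMk ha hζcf)
  · -- exactness
    have hf2 : ∀ p, ‖a t p‖ ^ 2 = 2 * (‖a t p‖ ^ 2 / 2) := fun p => by ring
    refine (hEXP n R (fun p => ‖a t p‖ ^ 2 / 2) (a t) (ζ t) (hE t) hf2
      (hζcf.contDiff t) (hζ0 t)).2 fun p => ?_
    have h1 : ∀ s : Icc (0 : ℝ) (2 * Real.pi),
        pb (fun p => ‖a t p‖ ^ 2 / 2) (η (t, s)) p = 0 := by
      intro s
      refine (hEXP n R (fun p => ‖a t p‖ ^ 2 / 2) (a t) (η (t, s)) (hE t) hf2
        (hη.contDiff (t, s)) (hη0 (t, s))).1 ?_ p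
      have h2 : (fun p => a t p * Complex.exp (η (t, s) p * Complex.I)) =
          fun p => a t (Λ s p) := by
        funext p
        exact (hηe (t, s) p).symm
      rw [h2]
      exact ex_lin (hE t) (Λ s) (hΛ.symp s) (hΛ.norm s) (hΛ.z s)
    have h2 := hasFDerivAt_setIntegral (S := Icc 0 (2 * Real.pi)) isCompact_Icc
      ((volume : Measure ℝ).restrict (Icc 0 (2 * Real.pi))) hcl.continuous
      (fun q => hcl.differentiable q) hcl.fderiv.continuous t p
    have h3 : HasFDerivAt (ζ t) ((2 * Real.pi)⁻¹ • ∫ s in Icc 0 (2 * Real.pi),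
        fderiv ℝ (η (t, projIcc 0 (2 * Real.pi) hpi.le s)) p
          ∂((volume : Measure ℝ).restrict (Icc 0 (2 * Real.pi)))) p := by
      have h4 := h2.const_smul ((2 * Real.pi)⁻¹)
      refine h4.congr_of_eventuallyEq (Filter.Eventually.of_forall fun x => ?_)
      show ζ t x = (2 * Real.pi)⁻¹ * _
      rw [hζ, hJ]
    rw [pb, h3.fderiv, smul_apply, ContinuousLinearMap.integral_apply]
    · have h4 : ∀ s : ℝ, (fderiv ℝ (η (t, projIcc 0 (2 * Real.pi) hpi.le s)) p)
          (hamV (fun p => ‖a t p‖ ^ 2 / 2) p) = 0 := fun s => h1 _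
      simp only [h4]
      simp
    · have h4 : Continuous fun s : ℝ => fderiv ℝ (η (t, projIcc 0 (2 * Real.pi) hpi.le s)) p :=
        hcl.fderiv.continuous.comp
          ((continuous_const.prodMk continuous_id).prodMk continuous_const)
      exact h4.continuousOn.integrableOn_compact isCompact_Icc
  · show ‖a t p * Complex.exp (ζ t p * Complex.I)‖ = ‖a t p‖
    rw [norm_mul, Complex.norm_exp_ofReal_mul_I, mul_one]
  · show a t (Λ s p) * Complex.exp (ζ t (Λ s p) * Complex.I) = _
    rw [hge, hζL, mul_assoc, ← Complex.exp_add]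
    congr 2
    push_cast
    ring
  · show a t p * Complex.exp (ζ t p * Complex.I) = a t p
    have h1 : ∀ s, g t s = fun _ => 0 := by
      intro s
      refine (hgu t s (fun _ => 0) continuous_const (fun _ _ => rfl) fun q => ?_).symm
      rw [h]
      simp
    have h2 : ζ t p = 0 := by
      rw [hζ, hJg]
      simp [h1]
    rw [h2]
    simp
  · show a t (M p) * Complex.exp (ζ t (M p) * Complex.I) = a t p * Complex.exp (ζ t p * Complex.I)
    have h1 : ∀ s, (fun p => g t s (M p)) = g t s := by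
      intro s
      refine hgu t s (fun p => g t s (M p)) ((hgc t s).comp hM)
        (fun q hq => hg0 t s _ (by rw [hMn]; exact hq)) fun q => ?_
      rw [← h (Λ s q), ← hMc, hge, h]
    have h2 : ζ t (M p) = ζ t p := by
      rw [hζ, hζ, hJg, hJg]
      congr 1
      exact intervalIntegral.integral_congr fun s _ => congrFun (h1 s) p
    rw [h2, h]

end Pool.Agent.TOR
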