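import Pool.Agent.TOR.Avg

/-!
# TOR: the lifting step

A compact family `h` of circle Hamiltonians (first coordinate) which is invariant under finitely
many commuting linear circles `Λ i` which fix `z_0` is lifted to a family of symplectomorphisms
which commute with the `Λ i`, the identity on `T₀` if `h` is the standard one near `T₀`.
-/

set_option autoImplicit false

open scoped ContDiff Topology
open Set Function TopologicalSpace

namespace Pool.Agent.TOR

open Pool.Agent.Helper17 Pool.Agent.Helper42 Pool.Agent.H50.Susp Pool.Agent.CRC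

/-- averaging over finitely many commuting circles -/
theorem avgAll (hFIB : St_FIB) (hEXP : St_EXP) {n : ℕ} {ι : Type}
    (Λ : ι → ℝ → Phase (n + 1) →L[ℝ] Phase (n + 1))
    (T : Type) [TopologicalSpace T] [CompactSpace T] (R : ℝ) (a : T → Phase (n + 1) → ℂ)
    (ha : CF a) (hE : ∀ t, Ex R (a t)) (S : Finset ι) (hΛ : ∀ i ∈ S, LinCircle (Λ i))
    (hc : ∀ i ∈ S, ∀ j ∈ S, ∀ s r p, Λ i s (Λ j r p) = Λ j r (Λ i s p))
    (hn : ∀ i ∈ S, ∀ t s p, ‖a t (Λ i s p)‖ = ‖a t p‖) :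
    ∃ b : T → Phase (n + 1) → ℂ, CF b ∧ (∀ t, Ex R (b t)) ∧ (∀ t p, ‖b t p‖ = ‖a t p‖) ∧
      (∀ i ∈ S, ∀ t s p, b t (Λ i s p) = b t p) ∧
      ∀ t, (∀ i ∈ S, ∀ s p, a t (Λ i s p) = a t p) → ∀ p, b t p = a t p := by
  classical
  induction S using Finset.induction_on with
  | empty => exact ⟨a, ha, hE, fun _ _ => rfl, by simp, fun _ _ _ => rfl⟩
  | insert i S hi ih =>
    obtain ⟨b, hb, hbE, hbn, hbi, hba⟩ := ih
      (fun j hj => hΛ j (Finset.mem_insert_of_mem hj))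
      (fun j hj k hk => hc j (Finset.mem_insert_of_mem hj) k (Finset.mem_insert_of_mem hk))
      (fun j hj => hn j (Finset.mem_insert_of_mem hj))
    have hi' := Finset.mem_insert_self i S
    obtain ⟨c, hcf, hcE, hcn, hci, hcb, hcM⟩ := avg hFIB hEXP (hΛ i hi') T R b hb hbE
      (fun t s p => by rw [hbn, hbn, hn i hi'])
    refine ⟨c, hcf, hcE, fun t p => by rw [hcn, hbn], ?_, ?_⟩
    · intro j hj t s p
      rcases Finset.mem_insert.1 hj with rfl | hj'
      · exact hci t s p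
      · exact hcM (Λ j s) (Λ j s).continuous ((hΛ j hj).norm s)
          (fun r p => hc i hi' j hj r s p) t (fun p => hbi j hj' t s p) p
    · intro t h p
      have h1 : ∀ p, b t p = a t p := hba t fun j hj => h j (Finset.mem_insert_of_mem hj)
      rw [hcb t (fun s p => by rw [h1, h1, h i hi']), h1]

/-- **Step** -/
theorem step (hLFA : St_LFA) (hEXR : St_EXR) (hUNI : St_UNI) (hBRK : St_BRK) (hFIB : St_FIB)
    (hEXP : St_EXP) {n : ℕ}
    (hCOMM : ∀ (Λ : ℝ → Phase (n + 1) →L[ℝ] Phase (n + 1)), LinCircle Λ →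
      ∀ φ : SympCt (n + 1),
        (∀ s p, zz ((φ : Equiv.Perm (Phase (n + 1))) (Λ s p)) =
          zz ((φ : Equiv.Perm (Phase (n + 1))) p)) →
        ∀ s p, (φ : Equiv.Perm (Phase (n + 1))) (Λ s p) =
          Λ s ((φ : Equiv.Perm (Phase (n + 1))) p))
    (q : C(SympCt (n + 1), CircHam n))
    (hq : ∀ φ p, (q φ).1 p = mu ((φ : Equiv.Perm (Phase (n + 1))) p))
    {ι : Type} (S : Finset ι) (Λ : ι → ℝ → Phase (n + 1) →L[ℝ] Phase (n + 1))
    (hΛ : ∀ i ∈ S, LinCircle (Λ i))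
    (hc : ∀ i ∈ S, ∀ j ∈ S, ∀ s r p, Λ i s (Λ j r p) = Λ j r (Λ i s p))
    (T : Type) [TopologicalSpace T] [CompactSpace T] [T2Space T] (h : C(T, CircHam n))
    (hinv : ∀ i ∈ S, ∀ t s p, (h t).1 (Λ i s p) = (h t).1 p)
    (N T₀ : Set T) (hN : IsClosed N) (hT₀ : IsClosed T₀) (hTN : T₀ ⊆ interior N)
    (hstd : ∀ t ∈ N, ∀ p, (h t).1 p = mu p) :
    ∃ F : C(T, SympCt (n + 1)), (∀ t, q (F t) = h t) ∧ (∀ t ∈ T₀, F t = 1) ∧
      ∀ i ∈ S, ∀ t s p, (F t : Equiv.Perm (Phase (n + 1))) (Λ i s p) =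
        Λ i s ((F t : Equiv.Perm (Phase (n + 1))) p) := by
  -- a lift
  obtain ⟨F, hF, hF1⟩ := hLFA n q hq T h N T₀ hN hT₀ hTN (ContinuousMap.const N 1) (by
    intro t
    refine Subtype.ext (funext fun p => ?_)
    change (q 1).1 p = (h t).1 p
    rw [hq, hstd t t.2]
    rfl)
  obtain ⟨hFCF, K, hK⟩ := CF_of_continuous F.continuous
  obtain ⟨R, hR⟩ := K.isCompact.isBounded.subset_closedBall (0 : Phase (n + 1))
  have haCF : CF (fun (t : T) (p : Phase (n + 1)) =>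
      zz ((F t : Equiv.Perm (Phase (n + 1))) p)) := hFCF.clm (zzL n)
  have haE : ∀ t : T, Ex R (fun p : Phase (n + 1) =>
      zz ((F t : Equiv.Perm (Phase (n + 1))) p)) := by
    intro t
    refine (hBRK n).2.2.1 R (F t) fun p hp => hK t p fun hpK => ?_
    have h := hR hpK
    rw [mem_closedBall_zero_iff] at h
    exact absurd hp (not_lt.2 h)
  have haN : ∀ (t : T) (p : Phase (n + 1)),
      ‖zz ((F t : Equiv.Perm (Phase (n + 1))) p)‖ ^ 2 = 2 * (h t).1 p := by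
    intro t p
    rw [← hF, hq, mu_eq]
    ring
  obtain ⟨b, hb, hbE, hbn, hbi, hba⟩ := avgAll hFIB hEXP Λ T R
    (fun (t : T) (p : Phase (n + 1)) => zz ((F t : Equiv.Perm (Phase (n + 1))) p)) haCF haE S
    hΛ hc (fun i hi t s p => by
      rw [← sq_eq_sq₀ (norm_nonneg _) (norm_nonneg _), haN, haN, hinv i hi])
  obtain ⟨φ, hφ, hφb⟩ := hEXR n T R b hb hbE
  refine ⟨⟨φ, hφ⟩, fun t => ?_, fun t ht => ?_, fun i hi t s p => ?_⟩
  · refine Subtype.ext (funext fun p => ?_)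
    change (q (φ t)).1 p = (h t).1 p
    rw [hq, mu_eq, hφb, hbn, haN]
    ring
  · refine hUNI n _ _ fun p => ?_
    change zz ((φ t : Equiv.Perm (Phase (n + 1))) p) = zz p
    have h1 : F t = 1 := hF1 t ht
    rw [hφb, hba t]
    · rw [h1]
      rfl
    · intro i hi s p
      rw [h1]
      exact (hΛ i hi).z s p
  · refine hCOMM (Λ i) (hΛ i hi) (φ t) (fun s p => ?_) s p
    rw [hφb, hφb, hbi i hi]

end Pool.Agent.TOR
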